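import Pool.Agent.Q228.LE.Main

/-!
# Balanced families of list edge colourings, and short lists
-/

set_option autoImplicit false

namespace Pool.Agent.Q228.LE

open SimpleGraph

/-- the edges at a vertex -/
def At {V E : Type} (s t : E → V) (v : V) : Set E := {e | s e = v ∨ t e = v}

/-- balanced families of colourings -/
def Bal (k : ℕ) : Prop :=
  ∀ (V E : Type) [Fintype V] [Fintype E] (s t : E → V), (∀ e, s e ≠ t e) →
    (∃ c : E → Fin k, Pr s t c) → ∀ (L : E → Finset ℕ) (C : V → Finset ℕ),
      (∀ e, k ≤ (L e).card) → (∀ v, (C v).card ≤ k) →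
      ∃ f : Fin k → E → ℕ, (∀ i e, f i e ∈ L e) ∧ (∀ i, Pr s t (f i)) ∧
        ∀ v, ∀ a ∈ C v, {i | ∃ e ∈ At s t v, f i e = a}.ncard ≤ (At s t v).ncard

/-- short lists -/
def Short (k : ℕ) : Prop :=
  ∀ (V E : Type) [Fintype V] [Fintype E] (s t : E → V), (∀ e, s e ≠ t e) →
    (∃ c : E → Fin k, Pr s t c) → ∀ (L : E → Finset ℕ) (m : V → ℕ),
      (∑ v, m v * (At s t v).ncard < k) → (∀ e, k ≤ (L e).card + m (s e) + m (t e)) →
      ∃ f : E → ℕ, (∀ e, f e ∈ L e) ∧ Pr s t f

lemma touch_iff {V E : Type} {s t : E → V} {e e' : E} :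
    Touch s t e e' ↔ ∃ v, e ∈ At s t v ∧ e' ∈ At s t v := by
  constructor
  · rintro (h | h | h | h)
    · exact ⟨s e, Or.inl rfl, Or.inl h.symm⟩
    · exact ⟨s e, Or.inl rfl, Or.inr h.symm⟩
    · exact ⟨t e, Or.inr rfl, Or.inl h.symm⟩
    · exact ⟨t e, Or.inr rfl, Or.inr h.symm⟩
  · rintro ⟨v, h1 | h1, h2 | h2⟩
    · left; exact h1.trans h2.symm
    · right; left; exact h1.trans h2.symm
    · right; right; left; exact h1.trans h2.symm
    · right; right; right; exact h1.trans h2.symm

section net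

variable {n : ℕ} {V E : Type} (s t : E → V) (c : E → Fin (n + 1))

/-- the edges of the network -/
abbrev NE : Type := (E × Fin (n + 1)) ⊕
  ({p : V × Fin (n + 1) // ∀ e ∈ At s t p.1, c e ≠ p.2} × Fin (n + 1))

/-- the vertices of the network -/
abbrev NV (n : ℕ) (V : Type) : Type := (V × Fin (n + 1)) ⊕ (V × Fin (n + 1))

/-- first end -/
def ns : NE s t c → NV n V
  | Sum.inl (e, i) => Sum.inl (s e, i)
  | Sum.inr (p, i) => Sum.inl (p.1.1, i)

/-- second end -/
def nt : NE s t c → NV n V
  | Sum.inl (e, i) => Sum.inl (t e, i)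
  | Sum.inr (p, _) => Sum.inr p.1

/-- base colours -/
def nc : NE s t c → Fin (n + 1)
  | Sum.inl (e, i) => c e + i
  | Sum.inr (p, i) => p.1.2 + i

lemma at_inl {e : E} {i : Fin (n + 1)} {x : NV n V}
    (h : (Sum.inl (e, i) : NE s t c) ∈ At (ns s t c) (nt s t c) x) :
    ∃ v, x = Sum.inl (v, i) ∧ e ∈ At s t v := by
  rcases h with h | h
  · exact ⟨s e, h.symm, Or.inl rfl⟩
  · exact ⟨t e, h.symm, Or.inr rfl⟩

lemma at_inr {p : {p : V × Fin (n + 1) // ∀ e ∈ At s t p.1, c e ≠ p.2}} {i : Fin (n + 1)}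
    {x : NV n V} (h : (Sum.inr (p, i) : NE s t c) ∈ At (ns s t c) (nt s t c) x) :
    x = Sum.inl (p.1.1, i) ∨ x = Sum.inr p.1 := by
  rcases h with h | h
  · exact Or.inl h.symm
  · exact Or.inr h.symm

lemma nc_pr (hc : Pr s t c) : Pr (ns s t c) (nt s t c) (nc s t c) := by
  intro e e' hne ht
  rw [touch_iff] at ht
  obtain ⟨x, h1, h2⟩ := ht
  obtain ⟨e, i⟩ | ⟨p, i⟩ := e <;> obtain ⟨e', j⟩ | ⟨q, j⟩ := e'
  · obtain ⟨v, rfl, hv⟩ := at_inl s t c h1
    obtain ⟨v', hx, hv'⟩ := at_inl s t c h2
    rw [Sum.inl.injEq, Prod.mk.injEq] at hx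
    obtain ⟨rfl, rfl⟩ := hx
    intro hcc
    have hcc' : c e + i = c e' + i := hcc
    have h3 := add_right_cancel hcc'
    refine hc e e' (fun h => hne (by rw [h])) (touch_iff.2 ⟨v, hv, hv'⟩) h3
  · obtain ⟨v, rfl, hv⟩ := at_inl s t c h1
    rcases at_inr s t c h2 with hx | hx
    · rw [Sum.inl.injEq, Prod.mk.injEq] at hx
      obtain ⟨rfl, rfl⟩ := hx
      intro hcc
      have hcc' : c e + i = q.1.2 + i := hcc
      exact q.2 e hv (add_right_cancel hcc')
    · simp at hx
  · obtain ⟨v, rfl, hv⟩ := at_inl s t c h2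
    rcases at_inr s t c h1 with hx | hx
    · rw [Sum.inl.injEq, Prod.mk.injEq] at hx
      obtain ⟨rfl, rfl⟩ := hx
      intro hcc
      have hcc' : p.1.2 + j = c e' + j := hcc
      exact p.2 e' hv (add_right_cancel hcc').symm
    · simp at hx
  · intro hcc
    have hcc' : p.1.2 + i = q.1.2 + j := hcc
    rcases at_inr s t c h1 with hx | hx <;> rcases at_inr s t c h2 with hy | hy
    · rw [hx, Sum.inl.injEq, Prod.mk.injEq] at hy
      obtain ⟨h3, rfl⟩ := hy
      have h4 := add_right_cancel hcc'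
      exact hne (by rw [Subtype.ext (Prod.ext h3 h4)])
    · rw [hx] at hy; simp at hy
    · rw [hx] at hy; simp at hy
    · rw [hx, Sum.inr.injEq] at hy
      rw [hy] at hcc'
      have h4 := add_left_cancel hcc'
      exact hne (by rw [Subtype.ext hy, h4])

end net

theorem bal_of_mult {k : ℕ} (h : Mult k) : Bal k := by
  classical
  intro V E _ _ s t hst ⟨c, hc⟩ L C hL hC
  cases k with
  | zero =>
    have : IsEmpty E := ⟨fun e => (c e).elim0⟩
    exact ⟨fun _ _ => 0, fun i => i.elim0, fun i => i.elim0, fun v a _ => by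
      have : {i : Fin 0 | ∃ e ∈ At s t v, (0 : ℕ) = a} = ∅ := by ext i; exact i.elim0
      rw [this]; simp⟩
  | succ n =>
    have hC2 : ∀ v, ∃ D : Finset ℕ, C v ⊆ D ∧ D.card = n + 1 := fun v =>
      Infinite.exists_superset_card_eq (C v) (n + 1) (hC v)
    choose D hD1 hD2 using hC2
    obtain ⟨F, hF1, hF2⟩ := h (NV n V) (NE s t c) (ns s t c) (nt s t c) (by
        rintro (⟨e, i⟩ | ⟨p, i⟩) he
        · have he' : (Sum.inl (s e, i) : NV n V) = Sum.inl (t e, i) := he
          rw [Sum.inl.injEq, Prod.mk.injEq] at he'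
          exact hst e he'.1
        · have he' : (Sum.inl (p.1.1, i) : NV n V) = Sum.inr p.1 := he
          simp at he')
      ⟨nc s t c, nc_pr s t c hc⟩
      (fun x => match x with
        | Sum.inl (e, _) => L e
        | Sum.inr (p, _) => D p.1.1) (by
        rintro (⟨e, i⟩ | ⟨p, i⟩)
        · exact hL e
        · exact (hD2 _).ge)
    refine ⟨fun i e => F (Sum.inl (e, i)), fun i e => hF1 (Sum.inl (e, i)), ?_, ?_⟩
    · intro i e e' hne ht
      refine hF2 _ _ ?_ ?_
      · intro hh
        rw [Sum.inl.injEq, Prod.mk.injEq] at hh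
        exact hne hh.1
      · rw [touch_iff] at ht ⊢
        obtain ⟨v, h1, h2⟩ := ht
        refine ⟨Sum.inl (v, i), ?_, ?_⟩
        · rcases h1 with h1 | h1
          · left; change Sum.inl (s e, i) = _; rw [h1]
          · right; change Sum.inl (t e, i) = _; rw [h1]
        · rcases h2 with h2 | h2
          · left; change Sum.inl (s e', i) = _; rw [h2]
          · right; change Sum.inl (t e', i) = _; rw [h2]
    · intro v a ha
      -- the missing colours
      obtain ⟨Ms, hMs⟩ : ∃ Ms : Set (Fin (n + 1)), Ms = {b | ∀ e ∈ At s t v, c e ≠ b} :=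
        ⟨_, rfl⟩
      have hMs' : ∀ b, b ∈ Ms → ∀ e ∈ At s t v, c e ≠ b := by
        intro b hb
        rw [hMs] at hb
        exact hb
      have hhub : ∀ b : Ms, ∃ i : Fin (n + 1),
          F (Sum.inr (⟨(v, b.1), hMs' b.1 b.2⟩, i)) = a := by
        intro b
        have hb : ∀ e ∈ At s t v, c e ≠ b.1 := hMs' b.1 b.2
        have h1 : Function.Injective (fun i : Fin (n + 1) =>
            (⟨F (Sum.inr (⟨(v, b.1), hb⟩, i)), hF1 (Sum.inr (⟨(v, b.1), hb⟩, i))⟩ :
              {x // x ∈ D v})) := by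
          intro i j hij
          by_contra hne
          refine hF2 (Sum.inr (⟨(v, b.1), hb⟩, i)) (Sum.inr (⟨(v, b.1), hb⟩, j)) ?_ ?_
            (congrArg Subtype.val hij)
          · intro hh
            rw [Sum.inr.injEq, Prod.mk.injEq] at hh
            exact hne hh.2
          · exact Or.inr (Or.inr (Or.inr rfl))
        have h2 : Function.Bijective (fun i : Fin (n + 1) =>
            (⟨F (Sum.inr (⟨(v, b.1), hb⟩, i)), hF1 (Sum.inr (⟨(v, b.1), hb⟩, i))⟩ :
              {x // x ∈ D v})) := by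
          rw [Fintype.bijective_iff_injective_and_card]
          refine ⟨h1, ?_⟩
          rw [Fintype.card_fin, Fintype.card_coe, hD2]
        obtain ⟨i, hi⟩ := h2.2 ⟨a, hD1 v ha⟩
        exact ⟨i, congrArg Subtype.val hi⟩
      choose I hI using hhub
      have hIinj : Function.Injective I := by
        intro b b' hbb
        by_contra hne
        have h1 := hI b
        have h2 := hI b'
        rw [← hbb] at h2
        refine hF2 _ _ ?_ ?_ (h1.trans h2.symm)
        · intro hh
          rw [Sum.inr.injEq, Prod.mk.injEq, Subtype.mk.injEq, Prod.mk.injEq] at hh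
          exact hne (Subtype.ext hh.1.2)
        · exact Or.inl rfl
      have hdisj : Disjoint {i | ∃ e ∈ At s t v, F (Sum.inl (e, i)) = a} (Set.range I) := by
        rw [Set.disjoint_left]
        rintro _ ⟨e, he, hea⟩ ⟨b, rfl⟩
        refine hF2 _ _ ?_ ?_ (hea.trans (hI b).symm)
        · simp
        · rcases he with he | he
          · left
            change (Sum.inl (s e, I b) : NV n V) = Sum.inl (v, I b)
            rw [he]
          · right; right; left
            change (Sum.inl (t e, I b) : NV n V) = Sum.inl (v, I b)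
            rw [he]
      have h1 : {i | ∃ e ∈ At s t v, F (Sum.inl (e, i)) = a}.ncard + (Set.range I).ncard ≤
          n + 1 := by
        rw [← Set.ncard_union_eq hdisj (Set.toFinite _) (Set.toFinite _)]
        refine (Set.ncard_le_ncard (Set.subset_univ _) (Set.toFinite _)).trans ?_
        rw [Set.ncard_univ]; simp
      have h2 : (Set.range I).ncard = Ms.ncard := by
        rw [← Set.image_univ, Set.ncard_image_of_injective _ hIinj, Set.ncard_univ]
        exact Nat.card_coe_set_eq Ms
      have h3 : Ms = (c '' (At s t v))ᶜ := by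
        rw [hMs]
        ext b
        simp only [Set.mem_ofPred_eq, Set.mem_compl_iff, Set.mem_image, not_exists, not_and]
      have h4 : (c '' (At s t v)).ncard + ((c '' (At s t v))ᶜ).ncard = n + 1 := by
        rw [Set.ncard_add_ncard_compl]; simp
      have h5 : (c '' (At s t v)).ncard ≤ (At s t v).ncard := Set.ncard_image_le (Set.toFinite _)
      have h7 : Ms.ncard = ((c '' (At s t v))ᶜ).ncard := congrArg Set.ncard h3
      have h6 : {i | ∃ e ∈ At s t v, F (Sum.inl (e, i)) = a}.ncard ≤ (At s t v).ncard := by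
        omega
      exact h6

theorem short_of_bal {k : ℕ} (h : Bal k) : Short k := by
  classical
  intro V E _ _ s t hst hc L m hm hL
  -- a bound for all colours of the lists
  obtain ⟨B, hB⟩ : ∃ B : ℕ, ∀ e, ∀ a ∈ L e, a < B := by
    refine ⟨(Finset.univ.biUnion L).sup id + 1, fun e a ha => ?_⟩
    have : a ∈ Finset.univ.biUnion L := Finset.mem_biUnion.2 ⟨e, Finset.mem_univ _, ha⟩
    have := Finset.le_sup (f := id) this
    simp only [id_eq] at this
    omega
  obtain ⟨φ⟩ : Nonempty (V ≃ Fin (Fintype.card V)) := ⟨Fintype.equivFin V⟩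
  -- the new colours of a vertex
  obtain ⟨m', hm'⟩ : ∃ m' : V → ℕ, m' = fun v => if (At s t v).ncard = 0 then 0 else m v :=
    ⟨_, rfl⟩
  have hm'e : ∀ v e, e ∈ At s t v → m' v = m v := by
    intro v e he
    rw [hm']
    have : (At s t v).ncard ≠ 0 := by
      intro h0
      rw [Set.ncard_eq_zero (Set.toFinite _)] at h0
      rw [h0] at he
      exact he
    simp [this]
  have hm'k : ∀ v, m' v ≤ k := by
    intro v
    rw [hm']
    simp only
    split_ifs with h0
    · exact Nat.zero_le _
    · have h1 : m v * (At s t v).ncard ≤ ∑ v, m v * (At s t v).ncard :=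
        Finset.single_le_sum (f := fun v => m v * (At s t v).ncard) (fun _ _ => Nat.zero_le _)
          (Finset.mem_univ v)
      have h2 : m v * 1 ≤ m v * (At s t v).ncard := Nat.mul_le_mul_left _ (by omega)
      omega
  have hm's : ∀ v, m' v * (At s t v).ncard = m v * (At s t v).ncard := by
    intro v
    rw [hm']
    simp only
    split_ifs with h0
    · rw [h0]; simp
    · rfl
  obtain ⟨N, hN⟩ : ∃ N : V → Finset ℕ,
      N = fun v => (Finset.range (m' v)).image (fun j => B + (j * Fintype.card V + φ v)) :=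
    ⟨_, rfl⟩
  have hcardV : ∀ v, (φ v : ℕ) < Fintype.card V := fun v => (φ v).2
  have hNcard : ∀ v, (N v).card = m' v := by
    intro v
    rw [hN]
    simp only
    rw [Finset.card_image_of_injective _ ?_, Finset.card_range]
    intro i j hij
    have h1 : i * Fintype.card V = j * Fintype.card V := by
      simp only at hij
      omega
    exact Nat.eq_of_mul_eq_mul_right (by have := hcardV v; omega) h1
  have hNB : ∀ v, ∀ a ∈ N v, B ≤ a := by
    intro v a ha
    rw [hN] at ha
    simp only [Finset.mem_image] at ha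
    obtain ⟨j, -, rfl⟩ := ha
    omega
  have hNd : ∀ u v, u ≠ v → Disjoint (N u) (N v) := by
    intro u v huv
    rw [Finset.disjoint_left]
    intro a h1 h2
    rw [hN] at h1 h2
    simp only [Finset.mem_image] at h1 h2
    obtain ⟨i, -, rfl⟩ := h1
    obtain ⟨j, -, hj⟩ := h2
    have h3 : i * Fintype.card V + (φ u : ℕ) = j * Fintype.card V + (φ v : ℕ) := by omega
    have h4 : (i * Fintype.card V + (φ u : ℕ)) % Fintype.card V = φ u := by
      rw [Nat.mul_comm, Nat.mul_add_mod, Nat.mod_eq_of_lt (hcardV u)]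
    have h5 : (j * Fintype.card V + (φ v : ℕ)) % Fintype.card V = φ v := by
      rw [Nat.mul_comm, Nat.mul_add_mod, Nat.mod_eq_of_lt (hcardV v)]
    rw [h3, h5] at h4
    exact huv (φ.injective (Fin.ext h4.symm))
  obtain ⟨f, hf1, hf2, hf3⟩ := h V E s t hst hc (fun e => L e ∪ (N (s e) ∪ N (t e))) N (by
    intro e
    have h1 : Disjoint (L e) (N (s e) ∪ N (t e)) := by
      rw [Finset.disjoint_left]
      intro a h2 h3
      rw [Finset.mem_union] at h3
      have h4 := hB e a h2
      rcases h3 with h3 | h3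
      · have := hNB _ a h3; omega
      · have := hNB _ a h3; omega
    rw [Finset.card_union_of_disjoint h1, Finset.card_union_of_disjoint (hNd _ _ (hst e)),
      hNcard, hNcard, hm'e (s e) e (Or.inl rfl), hm'e (t e) e (Or.inr rfl)]
    have := hL e
    omega) (fun v => by rw [hNcard]; exact hm'k v)
  -- the bad indices
  obtain ⟨Bd, hBd⟩ : ∃ Bd : V → ℕ → Set (Fin k),
      Bd = fun v a => {i | ∃ e ∈ At s t v, f i e = a} := ⟨_, rfl⟩
  have hbad : ∃ i, ∀ v, ∀ a ∈ N v, i ∉ Bd v a := by
    by_contra hcon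
    push Not at hcon
    have h1 : (Finset.univ : Finset (Fin k)) ⊆
        Finset.univ.biUnion (fun v => (N v).biUnion (fun a => (Bd v a).toFinset)) := by
      intro i _
      obtain ⟨v, a, ha, hi⟩ := hcon i
      rw [Finset.mem_biUnion]
      refine ⟨v, Finset.mem_univ _, ?_⟩
      rw [Finset.mem_biUnion]
      exact ⟨a, ha, by rw [Set.mem_toFinset]; exact hi⟩
    have h2 := Finset.card_le_card h1
    rw [Finset.card_univ, Fintype.card_fin] at h2
    have h3 : (Finset.univ.biUnion (fun v => (N v).biUnion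
        (fun a => (Bd v a).toFinset))).card ≤ ∑ v, m v * (At s t v).ncard := by
      refine Finset.card_biUnion_le.trans (Finset.sum_le_sum fun v _ => ?_)
      refine Finset.card_biUnion_le.trans ?_
      calc ∑ a ∈ N v, ((Bd v a).toFinset).card
          ≤ ∑ a ∈ N v, (At s t v).ncard := by
            refine Finset.sum_le_sum fun a ha => ?_
            rw [← Set.ncard_eq_toFinset_card', hBd]
            exact hf3 v a ha
        _ = m' v * (At s t v).ncard := by
            rw [Finset.sum_const, hNcard, smul_eq_mul]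
        _ = m v * (At s t v).ncard := hm's v
    omega
  obtain ⟨i, hi⟩ := hbad
  refine ⟨f i, fun e => ?_, hf2 i⟩
  have h1 := hf1 i e
  simp only [Finset.mem_union] at h1
  rcases h1 with h1 | h1 | h1
  · exact h1
  · exfalso
    refine hi (s e) _ h1 ?_
    rw [hBd]
    exact ⟨e, Or.inl rfl, rfl⟩
  · exfalso
    refine hi (t e) _ h1 ?_
    rw [hBd]
    exact ⟨e, Or.inr rfl, rfl⟩

/-- short lists in simple graphs -/
def ShortS (k : ℕ) : Prop :=
  ∀ (V : Type) [Fintype V] (G : SimpleGraph V), G.lineGraph.Colorable k →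
    ∀ (L : G.edgeSet → Finset ℕ) (m : V → ℕ),
      (∑ v, m v * {e : G.edgeSet | v ∈ e.1}.ncard < k) →
      (∀ u v (h : G.Adj u v), k ≤ (L ⟨s(u, v), h⟩).card + m u + m v) → LC G L

theorem shortS_of_short {k : ℕ} (h : Short k) : ShortS k := by
  classical
  intro V _ G hG L m hm hL
  obtain ⟨c⟩ := hG
  have hmem : ∀ (e : G.edgeSet) (v : V),
      v ∈ e.1 ↔ (Quot.out e.1).1 = v ∨ (Quot.out e.1).2 = v := by
    intro e v
    have h1 : s((Quot.out e.1).1, (Quot.out e.1).2) = e.1 := Quot.out_eq _
    conv_lhs => rw [← h1]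
    rw [Sym2.mem_iff]
    constructor
    · rintro (h | h)
      · exact Or.inl h.symm
      · exact Or.inr h.symm
    · rintro (h | h)
      · exact Or.inl h.symm
      · exact Or.inr h.symm
  have hat : ∀ v, At (fun e : G.edgeSet => (Quot.out e.1).1)
      (fun e : G.edgeSet => (Quot.out e.1).2) v = {e : G.edgeSet | v ∈ e.1} := by
    intro v
    ext e
    exact (hmem e v).symm
  have hadj : ∀ e e' : G.edgeSet, G.lineGraph.Adj e e' ↔ e ≠ e' ∧
      Touch (fun e : G.edgeSet => (Quot.out e.1).1) (fun e : G.edgeSet => (Quot.out e.1).2)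
        e e' := by
    intro e e'
    rw [lineGraph_adj_iff_exists, touch_iff]
    refine and_congr_right fun _ => exists_congr fun v => ?_
    rw [hat]
    exact Iff.rfl
  let _ : Fintype G.edgeSet := Fintype.ofFinite _
  have hval : ∀ e : G.edgeSet, G.Adj (Quot.out e.1).1 (Quot.out e.1).2 := by
    intro e
    have h1 : s((Quot.out e.1).1, (Quot.out e.1).2) = e.1 := Quot.out_eq _
    have h2 := e.2
    rw [← h1, mem_edgeSet] at h2
    exact h2
  obtain ⟨f, hf1, hf2⟩ := h V G.edgeSet (fun e => (Quot.out e.1).1) (fun e => (Quot.out e.1).2)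
    (fun e => (hval e).ne)
    ⟨c, fun e e' hne ht => c.valid ((hadj e e').2 ⟨hne, ht⟩)⟩ L m
    (by
      have h1 : (∑ v, m v * (At (fun e : G.edgeSet => (Quot.out e.1).1)
          (fun e : G.edgeSet => (Quot.out e.1).2) v).ncard) =
          ∑ v, m v * {e : G.edgeSet | v ∈ e.1}.ncard :=
        Finset.sum_congr rfl fun v _ => by rw [hat]
      rw [h1]
      exact hm)
    (by
      intro e
      have h1 := hL _ _ (hval e)
      have h2 : (⟨s((Quot.out e.1).1, (Quot.out e.1).2), hval e⟩ : G.edgeSet) = e :=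
        Subtype.ext (Quot.out_eq _)
      rw [h2] at h1
      exact h1)
  exact ⟨f, hf1, fun e e' ha => hf2 e e' ((hadj e e').1 ha).1 ((hadj e e').1 ha).2⟩

theorem simp_of_shortS {k : ℕ} (h : ShortS k) : Simp k := by
  intro V _ G hG L hL
  rcases Nat.eq_zero_or_pos k with rfl | hk
  · obtain ⟨c⟩ := hG
    exact ⟨fun _ => 0, fun e => (c e).elim0, fun e => (c e).elim0⟩
  · refine h V G hG L (fun _ => 0) (by simpa using hk) (fun u v huv => ?_)
    have := hL ⟨s(u, v), huv⟩
    omega

end Pool.Agent.Q228.LE
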