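import Pool.Agent.Q228.LE.Main

/-!
# Three-page drawings
-/

set_option autoImplicit false

namespace Pool.Agent.Q228.LE

open SimpleGraph

/-- one step of sorting: the neighbours `j` and `j + 1` are exchanged (or nothing happens) -/
def Stp (j a b : ℕ) : Prop := (b = a ∧ a ≠ j ∧ a ≠ j + 1) ∨ (a = j ∧ b = j + 1) ∨ (a = j + 1 ∧ b = j)

lemma sorting_aux (N : ℕ) (g : Equiv.Perm (Fin N)) :
    ∃ (T : ℕ) (G : ℕ → Equiv.Perm (Fin N)) (j : ℕ → ℕ), G 0 = 1 ∧ G T = g ∧
      ∀ t < T, ∀ x : Fin N, Stp (j t) (G t x) (G (t + 1) x) := by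
  cases N with
  | zero => exact ⟨0, fun _ => 1, fun _ => 0, rfl, by ext x; exact x.elim0, by simp⟩
  | succ n =>
    have hg : g ∈ Submonoid.closure (Set.range fun i : Fin n => Equiv.swap i.castSucc i.succ) := by
      rw [Equiv.Perm.mclosure_swap_castSucc_succ]; trivial
    induction hg using Submonoid.closure_induction_left with
    | one => exact ⟨0, fun _ => 1, fun _ => 0, rfl, rfl, by simp⟩
    | mul_left x hx y hy ih =>
      obtain ⟨i, rfl⟩ := hx
      obtain ⟨T, G, j, h0, hT, hs⟩ := ih
      refine ⟨T + 1, fun t => if t ≤ T then G t else Equiv.swap i.castSucc i.succ * y,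
        fun t => if t < T then j t else i.val, ?_, ?_, ?_⟩
      · simp [h0]
      · simp
      · intro t ht x
        rcases Nat.lt_or_ge t T with h | h
        · have e1 : t ≤ T := by omega
          have e2 : t + 1 ≤ T := by omega
          simp only [e1, e2, h, if_true]
          exact hs t h x
        · have e0 : t = T := by omega
          subst e0
          simp only [le_refl, if_true, lt_irrefl, if_false]
          have e2 : ¬ (t + 1 ≤ t) := by omega
          simp only [e2, if_false]
          rw [hT, Equiv.Perm.mul_apply]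
          obtain ⟨u, hu⟩ : ∃ u, u = y x := ⟨_, rfl⟩
          rw [← hu]
          unfold Stp
          by_cases h1 : u = i.castSucc
          · right; left
            rw [h1, Equiv.swap_apply_left]
            exact ⟨rfl, rfl⟩
          · by_cases h2 : u = i.succ
            · right; right
              rw [h2, Equiv.swap_apply_right]
              exact ⟨rfl, rfl⟩
            · left
              rw [Equiv.swap_apply_of_ne_of_ne h1 h2]
              refine ⟨rfl, fun h => h1 (Fin.ext h), fun h => h2 (Fin.ext h)⟩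

lemma sorting (N : ℕ) (g : Equiv.Perm (Fin N)) :
    ∃ (T : ℕ) (G : ℕ → Equiv.Perm (Fin N)) (j : ℕ → ℕ), G 0 = 1 ∧ G (T + 1) = g ∧
      ∀ t < T + 1, ∀ x : Fin N, Stp (j t) (G t x) (G (t + 1) x) := by
  obtain ⟨T, G, j, h0, hT, hs⟩ := sorting_aux N g
  refine ⟨T, fun t => if t ≤ T then G t else g, fun t => if t < T then j t else N, ?_, ?_, ?_⟩
  · simp [h0]
  · simp
  · intro t ht x
    rcases Nat.lt_or_ge t T with h | h
    · have e1 : t ≤ T := by omega
      have e2 : t + 1 ≤ T := by omega
      simp only [e1, e2, h, if_true]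
      exact hs t h x
    · have e0 : t = T := by omega
      subst e0
      simp only [le_refl, if_true, lt_irrefl, if_false]
      have e2 : ¬ (t + 1 ≤ t) := by omega
      simp only [e2, if_false]
      rw [hT]
      left
      have := (g x).2
      exact ⟨rfl, by omega, by omega⟩

section book

variable {k : ℕ} {V E : Type} (M : FM k V E) (T : ℕ)

/-- the hub of a wire -/
def hb (w : E × Bool) : V := if w.2 then M.t w.1 else M.s w.1

/-- the vertices -/
abbrev BV (T : ℕ) (V E : Type) : Type := V ⊕ (Fin (T + 1) × (E × Bool) × Bool)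

/-- the edges -/
abbrev BE : Type := (Fin (T + 1) × (E × Bool)) ⊕
  ({x : Fin (T + 1) × (E × Bool) × Fin k // x.2.2 ≠ M.c x.2.1.1} ⊕ E)

/-- the first end -/
def bs : BE M T → BV T V E
  | Sum.inl (t, w) => Fin.cases (Sum.inl (hb M w)) (fun t' => Sum.inr (t'.castSucc, w, true)) t
  | Sum.inr (Sum.inl x) => Sum.inr (x.1.1, x.1.2.1, false)
  | Sum.inr (Sum.inr e) => Sum.inr (Fin.last T, (e, false), true)

/-- the second end -/
def bt : BE M T → BV T V E
  | Sum.inl (t, w) => Sum.inr (t, w, false)
  | Sum.inr (Sum.inl x) => Sum.inr (x.1.1, x.1.2.1, true)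
  | Sum.inr (Sum.inr e) => Sum.inr (Fin.last T, (e, true), true)

/-- base colours -/
def bc : BE M T → Fin k
  | Sum.inl (_, w) => M.c w.1
  | Sum.inr (Sum.inl x) => x.1.2.2
  | Sum.inr (Sum.inr e) => M.c e

lemma bs_zero (w : E × Bool) : bs M T (Sum.inl (0, w)) = Sum.inl (hb M w) := rfl

lemma bs_succ (t : Fin T) (w : E × Bool) :
    bs M T (Sum.inl (t.succ, w)) = Sum.inr (t.castSucc, w, true) := rfl

/-- the edge of colour of the wire at an out-point -/
def nx (t : Fin (T + 1)) (w : E × Bool) : BE M T :=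
  Fin.lastCases (motive := fun _ => BE M T) (Sum.inr (Sum.inr w.1))
    (fun t' => Sum.inl (t'.succ, w)) t

lemma nx_last (w : E × Bool) : nx M T (Fin.last T) w = Sum.inr (Sum.inr w.1) := by
  unfold nx; simp

lemma nx_cast (t : Fin T) (w : E × Bool) : nx M T t.castSucc w = Sum.inl (t.succ, w) := by
  unfold nx; simp

lemma nx_at (t : Fin (T + 1)) (w : E × Bool) :
    bs M T (nx M T t w) = Sum.inr (t, w, true) ∨ bt M T (nx M T t w) = Sum.inr (t, w, true) := by
  induction t using Fin.lastCases with
  | last =>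
    rw [nx_last]
    obtain ⟨e, b⟩ := w
    cases b
    · left; rfl
    · right; rfl
  | cast t => rw [nx_cast]; left; rfl

lemma nx_c (t : Fin (T + 1)) (w : E × Bool) : bc M T (nx M T t w) = M.c w.1 := by
  induction t using Fin.lastCases with
  | last => rw [nx_last]; rfl
  | cast t => rw [nx_cast]; rfl

/-- the edges at a hub -/
lemma at_hub {v : V} {x : BE M T} (h : bs M T x = Sum.inl v ∨ bt M T x = Sum.inl v) :
    ∃ w, x = Sum.inl (0, w) ∧ hb M w = v := by
  obtain ⟨t, w⟩ | ⟨x⟩ | e := x
  · induction t using Fin.cases with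
    | zero =>
      rcases h with h | h
      · rw [bs_zero, Sum.inl.injEq] at h
        exact ⟨w, rfl, h⟩
      · simp [bt] at h
    | succ t =>
      rcases h with h | h
      · rw [bs_succ] at h; simp at h
      · simp [bt] at h
  · rcases h with h | h <;> simp [bs, bt] at h
  · rcases h with h | h <;> simp [bs, bt] at h

/-- the edges at an in-point -/
lemma at_in {t : Fin (T + 1)} {w : E × Bool} {x : BE M T}
    (h : bs M T x = Sum.inr (t, w, false) ∨ bt M T x = Sum.inr (t, w, false)) :
    x = Sum.inl (t, w) ∨ ∃ y, x = Sum.inr (Sum.inl y) ∧ y.1.1 = t ∧ y.1.2.1 = w := by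
  obtain ⟨t', w'⟩ | ⟨x⟩ | e := x
  · left
    rcases h with h | h
    · exfalso
      induction t' using Fin.cases with
      | zero => rw [bs_zero] at h; simp at h
      | succ t' => rw [bs_succ] at h; simp at h
    · simp only [bt, Sum.inr.injEq, Prod.mk.injEq, and_true] at h
      rw [h.1, h.2]
  · right
    rcases h with h | h
    · simp only [bs, Sum.inr.injEq, Prod.mk.injEq, and_true] at h
      exact ⟨x, rfl, h.1, h.2⟩
    · simp [bt] at h
  · rcases h with h | h <;> simp [bs, bt] at h

/-- the edges at an out-point -/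
lemma at_out {t : Fin (T + 1)} {w : E × Bool} {x : BE M T}
    (h : bs M T x = Sum.inr (t, w, true) ∨ bt M T x = Sum.inr (t, w, true)) :
    x = nx M T t w ∨ ∃ y, x = Sum.inr (Sum.inl y) ∧ y.1.1 = t ∧ y.1.2.1 = w := by
  obtain ⟨t', w'⟩ | ⟨x⟩ | e := x
  · left
    rcases h with h | h
    · induction t' using Fin.cases with
      | zero => rw [bs_zero] at h; simp at h
      | succ t' =>
        rw [bs_succ] at h
        simp only [Sum.inr.injEq, Prod.mk.injEq, and_true] at h
        rw [← h.1, ← h.2, nx_cast]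
    · simp [bt] at h
  · right
    rcases h with h | h
    · simp [bs] at h
    · simp only [bt, Sum.inr.injEq, Prod.mk.injEq, and_true] at h
      exact ⟨x, rfl, h.1, h.2⟩
  · left
    rcases h with h | h
    · simp only [bs, Sum.inr.injEq, Prod.mk.injEq, and_true] at h
      rw [← h.1, ← h.2, nx_last]
    · simp only [bt, Sum.inr.injEq, Prod.mk.injEq, and_true] at h
      rw [← h.1, ← h.2, nx_last]

/-- the three-page multigraph -/
def BM : FM k (BV T V E) (BE M T) where
  s := bs M T
  t := bt M T
  c := bc M T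
  ne := by
    rintro (⟨t, w⟩ | ⟨x⟩ | e)
    · induction t using Fin.cases with
      | zero => rw [bs_zero]; simp [bt]
      | succ t => rw [bs_succ]; simp [bt]
    · simp [bs, bt]
    · simp [bs, bt]
  full := by
    classical
    rintro (v | ⟨t, w, b⟩) i
    · obtain ⟨e, he⟩ : ∃ e, e = M.ed v i := ⟨_, rfl⟩
      have h1 := M.ed_spec v i
      rw [← he] at h1
      have h2 : ∃ b, hb M (e, b) = v := by
        rcases h1.1 with h | h
        · exact ⟨false, h⟩
        · exact ⟨true, h⟩
      obtain ⟨b, hb2⟩ := h2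
      refine ⟨Sum.inl (0, (e, b)), ⟨Or.inl (by rw [bs_zero, hb2]), h1.2⟩, ?_⟩
      rintro x ⟨hx, hxc⟩
      obtain ⟨⟨e', b'⟩, rfl, hw⟩ := at_hub M T hx
      have h3 : M.s e' = v ∨ M.t e' = v := by
        cases b'
        · exact Or.inl hw
        · exact Or.inr hw
      have h4 : e' = e := by
        rw [he, M.ed_eq h3 hxc]
      subst h4
      have h5 : b' = b := by
        cases b' <;> cases b
        · rfl
        · exfalso
          have e1 : M.s e' = v := hw
          have e2 : M.t e' = v := hb2
          exact M.ne e' (e1.trans e2.symm)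
        · exfalso
          have e1 : M.t e' = v := hw
          have e2 : M.s e' = v := hb2
          exact M.ne e' (e2.trans e1.symm)
        · rfl
      rw [h5]
    · by_cases hi : i = M.c w.1
      · subst hi
        cases b
        · refine ⟨Sum.inl (t, w), ⟨Or.inr rfl, rfl⟩, ?_⟩
          rintro x ⟨hx, hxc⟩
          rcases at_in M T hx with rfl | ⟨y, rfl, h1, h2⟩
          · rfl
          · exfalso
            apply y.2
            rw [h2]
            exact hxc
        · refine ⟨nx M T t w, ⟨nx_at M T t w, nx_c M T t w⟩, ?_⟩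
          rintro x ⟨hx, hxc⟩
          rcases at_out M T hx with rfl | ⟨y, rfl, h1, h2⟩
          · rfl
          · exfalso
            apply y.2
            rw [h2]
            exact hxc
      · refine ⟨Sum.inr (Sum.inl ⟨(t, w, i), hi⟩), ⟨?_, rfl⟩, ?_⟩
        · cases b
          · left; rfl
          · right; rfl
        · rintro x ⟨hx, hxc⟩
          have h0 : ∃ y, x = Sum.inr (Sum.inl y) ∧ y.1.1 = t ∧ y.1.2.1 = w := by
            cases b
            · rcases at_in M T hx with rfl | h
              · exact absurd hxc.symm hi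
              · exact h
            · rcases at_out M T hx with rfl | h
              · rw [nx_c] at hxc
                exact absurd hxc.symm hi
              · exact h
          obtain ⟨y, rfl, h1, h2⟩ := h0
          have h3 : y.1.2.2 = i := hxc
          have h4 : y = ⟨(t, w, i), hi⟩ := Subtype.ext (Prod.ext h1 (Prod.ext h2 h3))
          rw [h4]

/-- the lists -/
def bL (L : E → Finset ℕ) : BE M T → Finset ℕ
  | Sum.inl (_, w) => L w.1
  | Sum.inr (Sum.inl x) => L x.1.2.1.1
  | Sum.inr (Sum.inr e) => L e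

lemma nx_L (L : E → Finset ℕ) (t : Fin (T + 1)) (w : E × Bool) :
    bL M T L (nx M T t w) = L w.1 := by
  induction t using Fin.lastCases with
  | last => rw [nx_last]; rfl
  | cast t => rw [nx_cast]; rfl

lemma pig {k : ℕ} {A : Finset ℕ} (hA : A.card = k) (c0 : Fin k) {g : {i : Fin k // i ≠ c0} → ℕ}
    (hg : ∀ i, g i ∈ A) (hinj : Function.Injective g) {x y : ℕ} (hx : x ∈ A) (hy : y ∈ A)
    (hxg : ∀ i, g i ≠ x) (hyg : ∀ i, g i ≠ y) : x = y := by
  classical
  have h1 : (Finset.univ.image g).card = k - 1 := by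
    rw [Finset.card_image_of_injective _ hinj, Finset.card_univ]
    rw [Fintype.card_subtype_compl, Fintype.card_fin]
    simp
  have h2 : Finset.univ.image g ⊆ A := by
    intro z hz
    rw [Finset.mem_image] at hz
    obtain ⟨i, -, rfl⟩ := hz
    exact hg i
  have h3 : (A \ Finset.univ.image g).card ≤ 1 := by
    rw [Finset.card_sdiff_of_subset h2, h1, hA]
    omega
  rw [Finset.card_le_one] at h3
  apply h3
  · rw [Finset.mem_sdiff, Finset.mem_image]
    exact ⟨hx, fun ⟨i, _, h⟩ => hxg i h⟩
  · rw [Finset.mem_sdiff, Finset.mem_image]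
    exact ⟨hy, fun ⟨i, _, h⟩ => hyg i h⟩

/-- along a wire the colour does not change -/
lemma wire_step {L : E → Finset ℕ} (hL : ∀ e, (L e).card = k) {f : BE M T → ℕ}
    (hf : ∀ x, f x ∈ bL M T L x) (hp : Pr (bs M T) (bt M T) f) (t : Fin (T + 1))
    (w : E × Bool) : f (Sum.inl (t, w)) = f (nx M T t w) := by
  refine pig (hL w.1) (M.c w.1)
    (g := fun i => f (Sum.inr (Sum.inl ⟨(t, w, i.1), i.2⟩))) ?_ ?_ ?_ ?_ ?_ ?_
  · intro i
    exact hf (Sum.inr (Sum.inl ⟨(t, w, i.1), i.2⟩))
  · intro i j hij
    by_contra hne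
    refine hp (Sum.inr (Sum.inl ⟨(t, w, i.1), i.2⟩)) (Sum.inr (Sum.inl ⟨(t, w, j.1), j.2⟩)) ?_
      (Or.inl rfl) hij
    intro h
    simp only [Sum.inr.injEq, Sum.inl.injEq, Subtype.mk.injEq, Prod.mk.injEq, true_and] at h
    exact hne (Subtype.ext h)
  · exact hf (Sum.inl (t, w))
  · have := hf (nx M T t w)
    rwa [nx_L] at this
  · intro i
    refine hp (Sum.inr (Sum.inl ⟨(t, w, i.1), i.2⟩)) (Sum.inl (t, w)) (by simp) ?_
    right; left
    rfl
  · intro i h
    have hne : (Sum.inr (Sum.inl ⟨(t, w, i.1), i.2⟩) : BE M T) ≠ nx M T t w := by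
      intro hh
      have h1 := congrArg (bc M T) hh
      rw [nx_c] at h1
      exact i.2 h1
    refine hp _ _ hne ?_ h
    rcases nx_at M T t w with h1 | h1
    · right; right; left
      exact (h1 : _).symm
    · right; right; right
      exact (h1 : _).symm

lemma wire_all {L : E → Finset ℕ} (hL : ∀ e, (L e).card = k) {f : BE M T → ℕ}
    (hf : ∀ x, f x ∈ bL M T L x) (hp : Pr (bs M T) (bt M T) f) (w : E × Bool) :
    f (Sum.inl (0, w)) = f (Sum.inr (Sum.inr w.1)) := by
  have h : ∀ t : Fin (T + 1), f (Sum.inl (0, w)) = f (Sum.inl (t, w)) := by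
    intro t
    induction t using Fin.induction with
    | zero => rfl
    | succ t ih =>
      rw [ih, wire_step M T hL hf hp, nx_cast]
  rw [h (Fin.last T), wire_step M T hL hf hp, nx_last]

lemma book_back {L : E → Finset ℕ} (hL : ∀ e, (L e).card = k)
    (h : ∃ f : BE M T → ℕ, (∀ x, f x ∈ bL M T L x) ∧ Pr (bs M T) (bt M T) f) :
    ∃ c : E → ℕ, (∀ e, c e ∈ L e) ∧ Pr M.s M.t c := by
  obtain ⟨f, hf, hp⟩ := h
  refine ⟨fun e => f (Sum.inr (Sum.inr e)), fun e => hf (Sum.inr (Sum.inr e)), ?_⟩
  have key : ∀ w w' : E × Bool, w.1 ≠ w'.1 → hb M w = hb M w' →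
      f (Sum.inr (Sum.inr w.1)) ≠ f (Sum.inr (Sum.inr w'.1)) := by
    intro w w' hne hh
    rw [← wire_all M T hL hf hp w, ← wire_all M T hL hf hp w']
    refine hp _ _ ?_ ?_
    · intro h
      simp only [Sum.inl.injEq, Prod.mk.injEq, true_and] at h
      exact hne (by rw [h])
    · left
      rw [bs_zero, bs_zero, hh]
  intro e e' hne ht
  rcases ht with h | h | h | h
  · exact key (e, false) (e', false) hne h
  · exact key (e, false) (e', true) hne h
  · exact key (e, true) (e', false) hne h
  · exact key (e, true) (e', true) hne h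

end book

end Pool.Agent.Q228.LE
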