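import Pool.Agent.Q228.LE.Book

/-!
# The coordinates of the three-page drawing
-/

set_option autoImplicit false

namespace Pool.Agent.Q228.LE

/-- `a b` and `c d` cross, with the left end of `a b` first -/
def Crs (a b c d : ℕ) : Prop := min a b < min c d ∧ min c d < max a b ∧ max a b < max c d

/-- reflection of the odd layers -/
def rf (D τ x : ℕ) : ℕ := if τ % 2 = 0 then x else D - 1 - x

section coord

variable {k : ℕ} {V E : Type} (M : FM k V E) (T : ℕ) (pos : ℕ → E × Bool → ℕ) (j : ℕ → ℕ)
  (φ : V → ℕ) (D : ℕ)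

/-- local coordinate of an in-point -/
def li (t : ℕ) (w : E × Bool) : ℕ := 4 * pos t w - (if pos t w = j t + 1 then 3 else 0)

/-- coordinate of an in-point -/
def Ic (t : ℕ) (w : E × Bool) : ℕ := (t + 1) * D + rf D (t + 1) (li pos j t w)

/-- coordinate of an out-point -/
def Oc (t : ℕ) (w : E × Bool) : ℕ :=
  if t = 0 then φ (hb M w) else t * D + rf D t (4 * pos t w + 2)

/-- the coordinates -/
def XX : BV T V E → ℕ
  | Sum.inl v => φ v
  | Sum.inr (t, w, b) => if b then Oc M pos φ D (t.val + 1) w else Ic pos j D t.val w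

/-- the pages -/
def pg : BE M T → Fin 3
  | Sum.inl (t, _) => if t.val % 2 = 0 then 0 else 1
  | Sum.inr (Sum.inl _) => 2
  | Sum.inr (Sum.inr _) => if (T + 1) % 2 = 0 then 0 else 1

lemma X_bs_a (t : Fin (T + 1)) (w : E × Bool) :
    XX M T pos j φ D (bs M T (Sum.inl (t, w))) = Oc M pos φ D t.val w := by
  induction t using Fin.cases with
  | zero => rw [bs_zero]; simp [XX, Oc]
  | succ t => rw [bs_succ]; simp [XX]

lemma X_bt_a (t : Fin (T + 1)) (w : E × Bool) :
    XX M T pos j φ D (bt M T (Sum.inl (t, w))) = Ic pos j D t.val w := rfl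

structure Good : Prop where
  φi : Function.Injective φ
  φD : ∀ v, φ v < D
  pD : ∀ t ≤ T + 1, ∀ w, 4 * pos t w + 8 ≤ D
  pi : ∀ t ≤ T + 1, Function.Injective (pos t)
  st : ∀ t < T + 1, ∀ w, Stp (j t) (pos t w) (pos (t + 1) w)
  hub : ∀ w w', φ (hb M w) < φ (hb M w') → pos 0 w < pos 0 w'
  fin : ∀ e, pos (T + 1) (e, true) = pos (T + 1) (e, false) + 1 ∧ pos (T + 1) (e, false) % 2 = 0

variable {M T pos j φ D}

lemma Good.O1 (h : Good M T pos j φ D) {t : ℕ} (ht : t ≤ T + 1) (w : E × Bool) :
    t * D ≤ Oc M pos φ D t w ∧ Oc M pos φ D t w < (t + 1) * D := by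
  unfold Oc
  have h1 := h.pD t ht w
  have h2 := h.φD (hb M w)
  have e1 : (t + 1) * D = t * D + D := by ring
  rw [e1]
  by_cases ht0 : t = 0
  · subst ht0
    simp
    exact h2
  · rw [if_neg ht0]
    unfold rf
    split_ifs <;> omega

lemma Good.li_le (h : Good M T pos j φ D) {t : ℕ} (ht : t ≤ T + 1) (w : E × Bool) :
    li pos j t w + 8 ≤ D := by
  have h1 := h.pD t ht w
  unfold li
  omega

lemma Good.I1 (h : Good M T pos j φ D) {t : ℕ} (ht : t ≤ T) (w : E × Bool) :
    (t + 1) * D ≤ Ic pos j D t w ∧ Ic pos j D t w < (t + 2) * D := by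
  have h1 := h.li_le (show t ≤ T + 1 by omega) w
  unfold Ic
  have e1 : (t + 2) * D = (t + 1) * D + D := by ring
  rw [e1]
  unfold rf
  split_ifs <;> omega

lemma Good.O2 (h : Good M T pos j φ D) {t : ℕ} (ht : t ≤ T + 1) {w w' : E × Bool}
    (hlt : Oc M pos φ D t w < Oc M pos φ D t w') :
    (t % 2 = 0 → pos t w < pos t w') ∧ (t % 2 = 1 → pos t w' < pos t w) := by
  unfold Oc at hlt
  have h1 := h.pD t ht w
  have h2 := h.pD t ht w'
  by_cases ht0 : t = 0
  · subst ht0
    simp only [if_true] at hlt
    exact ⟨fun _ => h.hub w w' hlt, fun h0 => by omega⟩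
  · rw [if_neg ht0, if_neg ht0] at hlt
    unfold rf at hlt
    split_ifs at hlt <;> omega

lemma Good.I2 (h : Good M T pos j φ D) {t : ℕ} (ht : t ≤ T) {w w' : E × Bool}
    (hlt : Ic pos j D t w < Ic pos j D t w') :
    (t % 2 = 1 → pos t w < pos t w') ∧ (t % 2 = 0 → pos t w' < pos t w) := by
  have h1 := h.li_le (show t ≤ T + 1 by omega) w
  have h2 := h.li_le (show t ≤ T + 1 by omega) w'
  unfold Ic rf at hlt
  unfold li at *
  split_ifs at * <;> omega

lemma Good.aa (h : Good M T pos j φ D) {t t' : ℕ} (ht : t ≤ T) (ht' : t' ≤ T)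
    (hpar : t % 2 = t' % 2) (w w' : E × Bool) :
    ¬ Crs (Oc M pos φ D t w) (Ic pos j D t w) (Oc M pos φ D t' w') (Ic pos j D t' w') := by
  rintro ⟨c1, c2, c3⟩
  have o1 := h.O1 (show t ≤ T + 1 by omega) w
  have o2 := h.O1 (show t' ≤ T + 1 by omega) w'
  have i1 := h.I1 ht w
  have i2 := h.I1 ht' w'
  rcases lt_trichotomy t t' with hlt | rfl | hlt
  · have h3 : (t + 2) * D ≤ t' * D := Nat.mul_le_mul_right _ (by omega)
    omega
  · have h3 : Oc M pos φ D t w < Oc M pos φ D t w' := by omega
    have h4 : Ic pos j D t w < Ic pos j D t w' := by omega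
    have h5 := h.O2 (show t ≤ T + 1 by omega) h3
    have h6 := h.I2 ht h4
    rcases Nat.mod_two_eq_zero_or_one t with h7 | h7
    · have := h5.1 h7
      have := h6.2 h7
      omega
    · have := h5.2 h7
      have := h6.1 h7
      omega
  · have h3 : (t' + 2) * D ≤ t * D := Nat.mul_le_mul_right _ (by omega)
    omega

lemma Good.mm (h : Good M T pos j φ D) {t t' : ℕ} (ht : t ≤ T) (ht' : t' ≤ T)
    (w w' : E × Bool) :
    ¬ Crs (Ic pos j D t w) (Oc M pos φ D (t + 1) w) (Ic pos j D t' w')
      (Oc M pos φ D (t' + 1) w') := by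
  rintro ⟨c1, c2, c3⟩
  have o1 := h.O1 (show t + 1 ≤ T + 1 by omega) w
  have o2 := h.O1 (show t' + 1 ≤ T + 1 by omega) w'
  have i1 := h.I1 ht w
  have i2 := h.I1 ht' w'
  have e1 : t + 1 + 1 = t + 2 := rfl
  have e2 : t' + 1 + 1 = t' + 2 := rfl
  rw [e1] at o1
  rw [e2] at o2
  rcases lt_trichotomy t t' with hlt | rfl | hlt
  · have h3 : (t + 2) * D ≤ (t' + 1) * D := Nat.mul_le_mul_right _ (by omega)
    omega
  · by_cases hw : w = w'
    · subst hw
      omega
    · have hne1 : pos t w ≠ pos t w' := fun hh => hw (h.pi t (by omega) hh)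
      have hne2 : pos (t + 1) w ≠ pos (t + 1) w' := fun hh => hw (h.pi (t + 1) (by omega) hh)
      have s1 := h.st t (by omega) w
      have s2 := h.st t (by omega) w'
      have l1 := h.li_le (show t ≤ T + 1 by omega) w
      have l2 := h.li_le (show t ≤ T + 1 by omega) w'
      have p1 := h.pD (t + 1) (by omega) w
      have p2 := h.pD (t + 1) (by omega) w'
      clear o1 o2 i1 i2
      unfold Ic Oc at *
      have ht0 : ¬ (t + 1 = 0) := by omega
      rw [if_neg ht0, if_neg ht0] at *
      unfold rf at *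
      unfold li Stp at *
      generalize (t + 1) * D = R at *
      generalize pos t w = a at *
      generalize pos t w' = a' at *
      generalize pos (t + 1) w = b at *
      generalize pos (t + 1) w' = b' at *
      generalize j t = q at *
      split_ifs at * <;> omega
  · have h3 : (t' + 2) * D ≤ (t + 1) * D := Nat.mul_le_mul_right _ (by omega)
    omega

lemma Good.zz (h : Good M T pos j φ D) (e e' : E) :
    ¬ Crs (Oc M pos φ D (T + 1) (e, false)) (Oc M pos φ D (T + 1) (e, true))
      (Oc M pos φ D (T + 1) (e', false)) (Oc M pos φ D (T + 1) (e', true)) := by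
  rintro ⟨c1, c2, c3⟩
  have f1 := h.fin e
  have f2 := h.fin e'
  have p1 := h.pD (T + 1) le_rfl (e, true)
  have p2 := h.pD (T + 1) le_rfl (e', true)
  unfold Oc at *
  have ht0 : ¬ (T + 1 = 0) := by omega
  rw [if_neg ht0, if_neg ht0, if_neg ht0, if_neg ht0] at *
  unfold rf at *
  generalize (T + 1) * D = R at *
  rw [f1.1] at *
  rw [f2.1] at *
  have g1 := f1.2
  have g2 := f2.2
  clear f1 f2
  generalize pos (T + 1) (e, false) = a at *
  generalize pos (T + 1) (e', false) = a' at *
  split_ifs at * <;> omega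

lemma Good.az (h : Good M T pos j φ D) {t : ℕ} (ht : t ≤ T) (hpar : t % 2 = (T + 1) % 2)
    (w : E × Bool) (e : E) :
    ¬ Crs (Oc M pos φ D t w) (Ic pos j D t w) (Oc M pos φ D (T + 1) (e, false))
      (Oc M pos φ D (T + 1) (e, true)) := by
  rintro ⟨c1, c2, c3⟩
  have o1 := h.O1 (show t ≤ T + 1 by omega) w
  have i1 := h.I1 ht w
  have z1 := h.O1 (le_refl (T + 1)) (e, false)
  have z2 := h.O1 (le_refl (T + 1)) (e, true)
  have h3 : (t + 2) * D ≤ (T + 1) * D := Nat.mul_le_mul_right _ (by omega)
  omega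

lemma Good.za (h : Good M T pos j φ D) {t : ℕ} (ht : t ≤ T) (hpar : t % 2 = (T + 1) % 2)
    (w : E × Bool) (e : E) :
    ¬ Crs (Oc M pos φ D (T + 1) (e, false)) (Oc M pos φ D (T + 1) (e, true))
      (Oc M pos φ D t w) (Ic pos j D t w) := by
  rintro ⟨c1, c2, c3⟩
  have o1 := h.O1 (show t ≤ T + 1 by omega) w
  have i1 := h.I1 ht w
  have z1 := h.O1 (le_refl (T + 1)) (e, false)
  have z2 := h.O1 (le_refl (T + 1)) (e, true)
  have h3 : (t + 2) * D ≤ (T + 1) * D := Nat.mul_le_mul_right _ (by omega)
  omega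

/-- **edges on the same page do not cross** -/
lemma Good.noncross (h : Good M T pos j φ D) (x y : BE M T) (hxy : pg M T x = pg M T y) :
    ¬ Crs (XX M T pos j φ D (bs M T x)) (XX M T pos j φ D (bt M T x))
      (XX M T pos j φ D (bs M T y)) (XX M T pos j φ D (bt M T y)) := by
  obtain ⟨t, w⟩ | ⟨x⟩ | e := x <;> obtain ⟨t', w'⟩ | ⟨y⟩ | e' := y
  · rw [X_bs_a, X_bs_a, X_bt_a, X_bt_a]
    apply h.aa (by have := t.2; omega) (by have := t'.2; omega)
    simp only [pg] at hxy
    split_ifs at hxy with h1 h2 h2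
    · omega
    · simp at hxy
    · simp at hxy
    · omega
  · exfalso
    simp only [pg] at hxy
    split_ifs at hxy <;> exact absurd hxy (by decide)
  · rw [X_bs_a, X_bt_a]
    apply h.az (by have := t.2; omega)
    simp only [pg] at hxy
    split_ifs at hxy with h1 h2 h2
    · omega
    · simp at hxy
    · simp at hxy
    · omega
  · exfalso
    simp only [pg] at hxy
    split_ifs at hxy <;> exact absurd hxy (by decide)
  · exact h.mm (by have := x.1.2; omega) (by have := y.1.2; omega) _ _
  · exfalso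
    simp only [pg] at hxy
    split_ifs at hxy <;> exact absurd hxy (by decide)
  · rw [X_bs_a, X_bt_a]
    apply h.za (by have := t'.2; omega)
    simp only [pg] at hxy
    split_ifs at hxy with h1 h2 h2
    · omega
    · simp at hxy
    · simp at hxy
    · omega
  · exfalso
    simp only [pg] at hxy
    split_ifs at hxy <;> exact absurd hxy (by decide)
  · exact h.zz e e'

lemma Good.inj (h : Good M T pos j φ D) : Function.Injective (XX M T pos j φ D) := by
  have key : ∀ (t : Fin (T + 1)) (w : E × Bool) (b : Bool),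
      (t.val + 1) * D ≤ XX M T pos j φ D (Sum.inr (t, w, b)) ∧
      XX M T pos j φ D (Sum.inr (t, w, b)) < (t.val + 2) * D := by
    intro t w b
    cases b
    · exact h.I1 (by have := t.2; omega) w
    · exact h.O1 (by have := t.2; omega) w
  rintro (v | ⟨t, w, b⟩) (v' | ⟨t', w', b'⟩) hxy
  · rw [h.φi hxy]
  · exfalso
    have h1 := key t' w' b'
    have h2 := h.φD v
    rw [← hxy] at h1
    have h3 : XX M T pos j φ D (Sum.inl v) = φ v := rfl
    have h4 : 1 * D ≤ (t'.val + 1) * D := Nat.mul_le_mul_right _ (by omega)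
    omega
  · exfalso
    have h1 := key t w b
    have h2 := h.φD v'
    rw [hxy] at h1
    have h3 : XX M T pos j φ D (Sum.inl v') = φ v' := rfl
    have h4 : 1 * D ≤ (t.val + 1) * D := Nat.mul_le_mul_right _ (by omega)
    omega
  · have h1 := key t w b
    have h2 := key t' w' b'
    rw [← hxy] at h2
    have htt : t = t' := by
      rcases lt_trichotomy t t' with hlt | heq | hlt
      · exfalso
        have h3 : (t.val + 2) * D ≤ (t'.val + 1) * D :=
          Nat.mul_le_mul_right _ (by have : t.val < t'.val := hlt; omega)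
        omega
      · exact heq
      · exfalso
        have h3 : (t'.val + 2) * D ≤ (t.val + 1) * D :=
          Nat.mul_le_mul_right _ (by have : t'.val < t.val := hlt; omega)
        omega
    subst htt
    have ht := t.2
    have l1 := h.li_le (show t.val ≤ T + 1 by omega) w
    have l2 := h.li_le (show t.val ≤ T + 1 by omega) w'
    have p1 := h.pD (t.val + 1) (by omega) w
    have p2 := h.pD (t.val + 1) (by omega) w'
    have ht0 : ¬ (t.val + 1 = 0) := by omega
    cases b <;> cases b'
    · have h5 : Ic pos j D t.val w = Ic pos j D t.val w' := hxy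
      have h6 : pos t.val w = pos t.val w' := by
        unfold Ic rf at h5
        unfold li at *
        split_ifs at * <;> omega
      rw [h.pi t.val (by omega) h6]
    · exfalso
      have h5 : Ic pos j D t.val w = Oc M pos φ D (t.val + 1) w' := hxy
      unfold Ic Oc rf at h5
      rw [if_neg ht0] at h5
      unfold li at *
      generalize (t.val + 1) * D = R at *
      generalize pos t.val w = a at *
      generalize pos t.val w' = a' at *
      generalize pos (t.val + 1) w' = b' at *
      generalize j t.val = q at *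
      split_ifs at * <;> omega
    · exfalso
      have h5 : Oc M pos φ D (t.val + 1) w = Ic pos j D t.val w' := hxy
      unfold Ic Oc rf at h5
      rw [if_neg ht0] at h5
      unfold li at *
      generalize (t.val + 1) * D = R at *
      generalize pos t.val w = a at *
      generalize pos t.val w' = a' at *
      generalize pos (t.val + 1) w = b' at *
      generalize j t.val = q at *
      split_ifs at * <;> omega
    · have h5 : Oc M pos φ D (t.val + 1) w = Oc M pos φ D (t.val + 1) w' := hxy
      have h6 : pos (t.val + 1) w = pos (t.val + 1) w' := by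
        unfold Oc rf at h5
        rw [if_neg ht0, if_neg ht0] at h5
        split_ifs at h5 <;> omega
      rw [h.pi (t.val + 1) (by omega) h6]

end coord

end Pool.Agent.Q228.LE
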