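import Pool.Agent.Q228.LE.Book2
import Pool.Agent.Q228.LE.Bal

/-!
# Three pages are enough
-/

set_option autoImplicit false

namespace Pool.Agent.Q228.LE

/-- the conjecture for regular multigraphs with a three-page drawing -/
def BookC (k : ℕ) : Prop :=
  ∀ (V E : Type) [Fintype V] [Fintype E] (s t : E → V) (X : V → ℕ) (page : E → Fin 3)
    (L : E → Finset ℕ),
    (∀ e, s e ≠ t e) →
    (∃ c : E → Fin k, Pr s t c) →
    (∀ v, (At s t v).ncard = k) →
    Function.Injective X →
    (∀ e e', page e = page e' → ¬ Crs (X (s e)) (X (t e)) (X (s e')) (X (t e'))) →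
    (∀ e, (L e).card = k) →
    ∃ f : E → ℕ, (∀ e, f e ∈ L e) ∧ Pr s t f

variable {k : ℕ} {V E : Type}

lemma fm_pr (M : FM k V E) : Pr M.s M.t M.c := by
  intro e e' hne ht hc
  rw [touch_iff] at ht
  obtain ⟨v, h1, h2⟩ := ht
  apply hne
  rw [← M.ed_eq h1 rfl, ← M.ed_eq h2 hc.symm]

lemma fm_ncard (M : FM k V E) (v : V) : (At M.s M.t v).ncard = k := by
  have h : At M.s M.t v = Set.range (fun i => M.ed v i) := by
    ext e
    constructor
    · intro he
      exact ⟨M.c e, M.ed_eq he rfl⟩
    · rintro ⟨i, rfl⟩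
      exact (M.ed_spec v i).1
  have hinj : Function.Injective (fun i => M.ed v i) := by
    intro i i' hii
    have := congrArg M.c hii
    simp only [M.ed_c] at this
    exact this
  rw [h, ← Set.image_univ, Set.ncard_image_of_injective _ hinj, Set.ncard_univ]
  simp

/-- an enumeration compatible with a function -/
lemma enum (W : Type) [Fintype W] (κ : W → ℕ) :
    ∃ A : W ≃ Fin (Fintype.card W), ∀ w w', κ w < κ w' → A w < A w' := by
  classical
  obtain ⟨N, hN⟩ : ∃ N, N = Fintype.card W := ⟨_, rfl⟩
  obtain ⟨ι, hι⟩ : ∃ ι : W → ℕ, ι = fun w => κ w * N + (Fintype.equivFin W w).val := ⟨_, rfl⟩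
  have hlt : ∀ w, (Fintype.equivFin W w).val < N := by
    intro w
    rw [hN]
    exact (Fintype.equivFin W w).2
  have hmono : ∀ w w', κ w < κ w' → ι w < ι w' := by
    intro w w' h
    rw [hι]
    have h1 : (κ w + 1) * N ≤ κ w' * N := Nat.mul_le_mul_right _ h
    have h2 := hlt w
    have e1 : (κ w + 1) * N = κ w * N + N := by ring
    simp only
    omega
  have hinj : Function.Injective ι := by
    intro w w' h
    have hk : κ w = κ w' := by
      rcases lt_trichotomy (κ w) (κ w') with h1 | h1 | h1
      · exact absurd h (hmono _ _ h1).ne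
      · exact h1
      · exact absurd h (hmono _ _ h1).ne'
    rw [hι] at h
    simp only [hk] at h
    have : (Fintype.equivFin W w).val = (Fintype.equivFin W w').val := by omega
    exact (Fintype.equivFin W).injective (Fin.ext this)
  obtain ⟨r, hr⟩ : ∃ r : W → ℕ,
      r = fun w => (Finset.univ.filter (fun w' => ι w' < ι w)).card := ⟨_, rfl⟩
  have hrlt : ∀ w, r w < Fintype.card W := by
    intro w
    rw [hr, ← Finset.card_univ]
    apply Finset.card_lt_card
    rw [Finset.ssubset_univ_iff]
    intro h
    have : w ∈ Finset.univ.filter (fun w' => ι w' < ι w) := by rw [h]; exact Finset.mem_univ _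
    simp at this
  have hrm : ∀ w w', ι w < ι w' → r w < r w' := by
    intro w w' h
    rw [hr]
    apply Finset.card_lt_card
    rw [Finset.ssubset_iff_of_subset]
    · exact ⟨w, by simp [h], by simp⟩
    · intro x hx
      simp only [Finset.mem_filter, Finset.mem_univ, true_and] at hx ⊢
      omega
  have hbij : Function.Bijective (fun w => (⟨r w, hrlt w⟩ : Fin (Fintype.card W))) := by
    rw [Fintype.bijective_iff_injective_and_card]
    refine ⟨?_, by simp⟩
    intro w w' h
    have h1 : r w = r w' := congrArg Fin.val h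
    rcases lt_trichotomy (ι w) (ι w') with h2 | h2 | h2
    · exact absurd h1 (hrm _ _ h2).ne
    · exact hinj h2
    · exact absurd h1 (hrm _ _ h2).ne'
  refine ⟨Equiv.ofBijective _ hbij, fun w w' h => ?_⟩
  exact hrm _ _ (hmono _ _ h)

lemma exists_good [Fintype V] [Fintype E] (M : FM k V E) :
    ∃ (T : ℕ) (pos : ℕ → E × Bool → ℕ) (j : ℕ → ℕ) (φ : V → ℕ) (D : ℕ), Good M T pos j φ D := by
  classical
  obtain ⟨N, hN⟩ : ∃ N, N = Fintype.card (E × Bool) := ⟨_, rfl⟩
  obtain ⟨A, hA⟩ := enum (E × Bool) (fun w => (Fintype.equivFin V (hb M w)).val)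
  have hcard : Fintype.card (E × Bool) = Fintype.card E * 2 := by
    rw [Fintype.card_prod, Fintype.card_bool]
  have hBlt : ∀ w : E × Bool, 2 * (Fintype.equivFin E w.1).val + (if w.2 then 1 else 0) <
      Fintype.card (E × Bool) := by
    intro w
    have := (Fintype.equivFin E w.1).2
    rw [hcard]
    split_ifs <;> omega
  have hBb : Function.Bijective (fun w : E × Bool =>
      (⟨_, hBlt w⟩ : Fin (Fintype.card (E × Bool)))) := by
    rw [Fintype.bijective_iff_injective_and_card]
    refine ⟨?_, by simp⟩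
    rintro ⟨e, b⟩ ⟨e', b'⟩ h
    have h1 : 2 * (Fintype.equivFin E e).val + (if b then 1 else 0) =
        2 * (Fintype.equivFin E e').val + (if b' then 1 else 0) := congrArg Fin.val h
    have h2 : (Fintype.equivFin E e).val = (Fintype.equivFin E e').val ∧ b = b' := by
      cases b <;> cases b' <;> simp at h1 ⊢ <;> omega
    rw [(Fintype.equivFin E).injective (Fin.ext h2.1), h2.2]
  obtain ⟨B, hB⟩ : ∃ B : E × Bool ≃ Fin (Fintype.card (E × Bool)), ∀ w,
      (B w).val = 2 * (Fintype.equivFin E w.1).val + (if w.2 then 1 else 0) :=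
    ⟨Equiv.ofBijective _ hBb, fun w => rfl⟩
  obtain ⟨T, G, j, h0, hT, hs⟩ := sorting _ (A.symm.trans B)
  refine ⟨T, fun t w => (G t (A w)).val, j, fun v => (Fintype.equivFin V v).val,
    4 * Fintype.card (E × Bool) + 8 + Fintype.card V, ?_, ?_, ?_, ?_, ?_, ?_, ?_⟩
  · intro v v' h
    exact (Fintype.equivFin V).injective (Fin.ext h)
  · intro v
    have := (Fintype.equivFin V v).2
    omega
  · intro t _ w
    have := (G t (A w)).2
    omega
  · intro t _ w w' h
    exact A.injective ((G t).injective (Fin.ext h))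
  · intro t ht w
    exact hs t ht (A w)
  · intro w w' h
    simp only [h0, Equiv.Perm.one_apply]
    exact hA w w' h
  · intro e
    simp only [hT, Equiv.trans_apply, Equiv.symm_apply_apply, hB]
    constructor
    · simp
    · simp

theorem mult_of_book {k : ℕ} (h : BookC k) : Mult k := by
  classical
  intro V E _ _ s t hst ⟨c, hc⟩ L hL
  have hL2 : ∀ e, ∃ A ⊆ L e, A.card = k := fun e => Finset.exists_subset_card_eq (hL e)
  choose A hA1 hA2 using hL2
  have : Finite (DB s t c) := by unfold DB; infer_instance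
  let _ : Fintype (DB s t c) := Fintype.ofFinite _
  obtain ⟨T, pos, j, φ, D, hG⟩ := exists_good (reg s t hst c hc)
  obtain ⟨f, hf1, hf2⟩ := book_back (reg s t hst c hc) T
    (L := fun x => match x with
      | Sum.inl (e, _) => A e
      | Sum.inr _ => Finset.range k) (by
      rintro (⟨e, b⟩ | p)
      · exact hA2 e
      · exact Finset.card_range k)
    (h _ _ _ _ (XX (reg s t hst c hc) T pos j φ D) (pg (reg s t hst c hc) T) _
      (BM (reg s t hst c hc) T).ne ⟨_, fm_pr (BM (reg s t hst c hc) T)⟩
      (fm_ncard (BM (reg s t hst c hc) T)) hG.inj hG.noncross (by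
        rintro (⟨t', w⟩ | ⟨x⟩ | e)
        · obtain ⟨⟨e, b⟩ | p, b'⟩ := w
          · exact hA2 e
          · exact Finset.card_range k
        · obtain ⟨⟨t', ⟨⟨e, b⟩ | p, b'⟩, i⟩, hx⟩ := x
          · exact hA2 e
          · exact Finset.card_range k
        · obtain ⟨e, b⟩ | p := e
          · exact hA2 e
          · exact Finset.card_range k))
  refine ⟨fun e => f (Sum.inl (e, false)), fun e => hA1 e (hf1 (Sum.inl (e, false))), ?_⟩
  intro e e' hne htt
  refine hf2 (Sum.inl (e, false)) (Sum.inl (e', false)) ?_ ?_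
  · intro hh
    have hh1 : (Sum.inl (e, false) : (E × Bool) ⊕
      {p : V × Fin k // ∀ e, (s e = p.1 ∨ t e = p.1) → c e ≠ p.2}) = Sum.inl (e', false) := hh
    rw [Sum.inl.injEq, Prod.mk.injEq] at hh1
    exact hne hh1.1
  · rcases htt with h1 | h1 | h1 | h1
    · left; change (s e, false) = (s e', false); rw [h1]
    · right; left; change (s e, false) = (t e', false); rw [h1]
    · right; right; left; change (t e, false) = (s e', false); rw [h1]
    · right; right; right; change (t e, false) = (t e', false); rw [h1]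

theorem book_of_simp {k : ℕ} (h : Simp k) : BookC k := by
  intro V E _ _ s t X page L h1 h2 _ _ _ h3
  exact mult_of_restr (g := 0) (restr_of_simp h 0) V E s t h1 h2 L (fun e => (h3 e).ge)

end Pool.Agent.Q228.LE
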