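import Pool.Agent.Q228.LE.Geo

/-!
# Colourings of the replacement graph
-/

set_option autoImplicit false

namespace Pool.Agent.Q228.LE

open SimpleGraph

/-- proper edge colourings of simple graphs from lists -/
def LC {V : Type} (G : SimpleGraph V) (L : G.edgeSet → Finset ℕ) : Prop :=
  ∃ f : G.edgeSet → ℕ, (∀ e, f e ∈ L e) ∧ ∀ e e', G.lineGraph.Adj e e' → f e ≠ f e'

variable {k : ℕ} {V E : Type} (M : FM k V E) {r : ℕ} (z : Fin k)

lemma adj_io (u : WT k r V E) (i : Fin k) : (GR M r z).Adj u (io M r z i u) := ⟨i, rfl⟩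

/-- the edge of colour `i` at `u` -/
noncomputable def eg (u : WT k r V E) (i : Fin k) : (GR M r z).edgeSet :=
  ⟨s(u, io M r z i u), adj_io M z u i⟩

lemma eg_surj (e : (GR M r z).edgeSet) : ∃ u i, e = eg M z u i := by
  obtain ⟨e, he⟩ := e
  induction e using Sym2.inductionOn with
  | _ u v =>
    have h : ∃ i, io M r z i u = v := he
    obtain ⟨i, rfl⟩ := h
    exact ⟨u, i, rfl⟩

lemma eg_mem {u v : WT k r V E} {i : Fin k} (h : v ∈ (eg M z u i).1) :
    eg M z u i = eg M z v i := by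
  have h1 : v ∈ s(u, io M r z i u) := h
  rw [Sym2.mem_iff] at h1
  rcases h1 with rfl | rfl
  · rfl
  · apply Subtype.ext
    change s(u, io M r z i u) = s(io M r z i u, io M r z i (io M r z i u))
    rw [io_io, Sym2.eq_swap]

lemma eg_inj (hr : 1 ≤ r) {u : WT k r V E} {i j : Fin k} (h : eg M z u i = eg M z u j) :
    i = j := by
  have h1 : s(u, io M r z i u) = s(u, io M r z j u) := congrArg Subtype.val h
  rw [Sym2.congr_right] at h1
  exact io_inj M z hr h1

lemma eg_eq (hr : 1 ≤ r) {u v : WT k r V E} {i j : Fin k} (h : eg M z u i = eg M z v j) :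
    i = j := by
  have h1 : u ∈ (eg M z v j).1 := by
    rw [← h]
    exact Sym2.mem_mk_left _ _
  rw [eg_mem M z h1] at h
  exact eg_inj M z hr h

lemma ncard_nbr (hr : 1 ≤ r) (u : WT k r V E) : ((GR M r z).neighborSet u).ncard = k := by
  have h : (GR M r z).neighborSet u = Set.range (fun i => io M r z i u) := by
    ext v
    exact Iff.rfl
  rw [h, ← Set.image_univ, Set.ncard_image_of_injective _ (fun i j h => io_inj M z hr h),
    Set.ncard_univ]
  simp

lemma line_adj {e e' : (GR M r z).edgeSet} (h : (GR M r z).lineGraph.Adj e e') :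
    ∃ u i j, e = eg M z u i ∧ e' = eg M z u j ∧ i ≠ j := by
  rw [lineGraph_adj_iff_exists] at h
  obtain ⟨hne, v, h1, h2⟩ := h
  obtain ⟨u, i, rfl⟩ := eg_surj M z e
  obtain ⟨u', j, rfl⟩ := eg_surj M z e'
  rw [eg_mem M z h1, eg_mem M z h2] at hne ⊢
  exact ⟨v, i, j, rfl, rfl, fun h => hne (by rw [h])⟩

lemma adj_eg (hr : 1 ≤ r) (u : WT k r V E) {i j : Fin k} (h : i ≠ j) :
    (GR M r z).lineGraph.Adj (eg M z u i) (eg M z u j) := by
  rw [lineGraph_adj_iff_exists]
  exact ⟨fun h1 => h (eg_inj M z hr h1), u, Sym2.mem_mk_left _ _, Sym2.mem_mk_left _ _⟩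

lemma colorable (hr : 1 ≤ r) : (GR M r z).lineGraph.Colorable k := by
  refine ⟨Coloring.mk (fun e => (eg_surj M z e).choose_spec.choose) ?_⟩
  intro e e' h
  obtain ⟨u, i, j, rfl, rfl, hij⟩ := line_adj M z h
  have h1 := (eg_surj M z (eg M z u i)).choose_spec.choose_spec
  have h2 := (eg_surj M z (eg M z u j)).choose_spec.choose_spec
  rw [← eg_eq M z hr h1, ← eg_eq M z hr h2]
  exact hij

lemma bipartite : ((GR M r z).induce (Set.range (Sum.inl : V → WT k r V E))ᶜ).Colorable 2 := by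
  refine ⟨Coloring.mk (fun v => match v.1 with
    | Sum.inl _ => (0 : Fin 2)
    | Sum.inr (_, (_, b)) => if b then 1 else 0) ?_⟩
  rintro ⟨v | ⟨e, x, b⟩, hv⟩ ⟨v' | ⟨e', x', b'⟩, hv'⟩ h
  · exact absurd ⟨v, rfl⟩ hv
  · exact absurd ⟨v, rfl⟩ hv
  · exact absurd ⟨v', rfl⟩ hv'
  · have h1 : ∃ i, io M r z i (Sum.inr (e, (x, b))) = (Sum.inr (e', (x', b')) : WT k r V E) := h
    obtain ⟨i, hi⟩ := h1
    by_cases h1 : i = M.c e ∧ x = 1 ∧ b = false
    · obtain ⟨rfl, rfl, rfl⟩ := h1
      rw [io_a] at hi; simp at hi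
    · by_cases h2 : i = M.c e ∧ x = sg r z ∧ b = true
      · obtain ⟨rfl, rfl, rfl⟩ := h2
        rw [io_b] at hi; simp at hi
      · rw [io_in M z h1 h2] at hi
        simp only [Sum.inr.injEq, Prod.mk.injEq] at hi
        obtain ⟨-, -, rfl⟩ := hi
        cases b <;> simp

/-- the list of a pair of vertices -/
def lst (L : E → Finset ℕ) : WT k r V E → WT k r V E → Finset ℕ
  | Sum.inr (e, _), _ => L e
  | Sum.inl _, Sum.inr (e, _) => L e
  | Sum.inl _, Sum.inl _ => ∅

lemma lst_symm (L : E → Finset ℕ) (u : WT k r V E) (i : Fin k) :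
    lst L u (io M r z i u) = lst L (io M r z i u) u := by
  obtain v | ⟨e, x, b⟩ := u
  · by_cases h : M.s (M.ed v i) = v
    · rw [io_inl_s M z h]; rfl
    · rw [io_inl_t M z h]; rfl
  · by_cases h1 : i = M.c e ∧ x = 1 ∧ b = false
    · obtain ⟨rfl, rfl, rfl⟩ := h1
      rw [io_a]; rfl
    · by_cases h2 : i = M.c e ∧ x = sg r z ∧ b = true
      · obtain ⟨rfl, rfl, rfl⟩ := h2
        rw [io_b]; rfl
      · rw [io_in M z h1 h2]; rfl

/-- the lists of the replacement graph -/
noncomputable def LR (L : E → Finset ℕ) (e : (GR M r z).edgeSet) : Finset ℕ :=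
  lst L (Quot.out e.1).1 (Quot.out e.1).2

lemma LR_eg (L : E → Finset ℕ) (u : WT k r V E) (i : Fin k) :
    LR M z L (eg M z u i) = lst L u (io M r z i u) := by
  unfold LR
  have h : s((Quot.out (eg M z u i).1).1, (Quot.out (eg M z u i).1).2) =
      s(u, io M r z i u) := Quot.out_eq _
  rw [Sym2.eq_iff] at h
  rcases h with ⟨h1, h2⟩ | ⟨h1, h2⟩
  · rw [h1, h2]
  · rw [h1, h2, lst_symm]

lemma LR_gad (L : E → Finset ℕ) (e : E) (q : Equiv.Perm (TW k r) × Bool) (i : Fin k) :
    LR M z L (eg M z (Sum.inr (e, q)) i) = L e := by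
  rw [LR_eg]; rfl

lemma LR_hub (L : E → Finset ℕ) (v : V) (i : Fin k) :
    LR M z L (eg M z (Sum.inl v : WT k r V E) i) = L (M.ed v i) := by
  rw [LR_eg]
  by_cases h : M.s (M.ed v i) = v
  · rw [io_inl_s M z h]; rfl
  · rw [io_inl_t M z h]; rfl

lemma LR_card {L : E → Finset ℕ} (hL : ∀ e, (L e).card = k) (e : (GR M r z).edgeSet) :
    (LR M z L e).card = k := by
  obtain ⟨u, i, rfl⟩ := eg_surj M z e
  obtain v | ⟨e, q⟩ := u
  · rw [LR_hub, hL]
  · rw [LR_gad, hL]

/-- **the two ends of a wire have the same colour** -/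
lemma wire (hr : 1 ≤ r) {L : E → Finset ℕ} (hL : ∀ e, (L e).card = k)
    {f : (GR M r z).edgeSet → ℕ} (hf : ∀ e, f e ∈ LR M z L e)
    (hp : ∀ e e', (GR M r z).lineGraph.Adj e e' → f e ≠ f e') (e : E) :
    f (eg M z (Sum.inl (M.s e) : WT k r V E) (M.c e)) =
      f (eg M z (Sum.inl (M.t e) : WT k r V E) (M.c e)) := by
  by_contra hne
  -- every colour of the list is present at every vertex of the gadget
  have hall : ∀ (q : Equiv.Perm (TW k r) × Bool) (c : ℕ), c ∈ L e →
      ∃ i, f (eg M z (Sum.inr (e, q)) i) = c := by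
    intro q c hc
    have h1 : Function.Injective (fun i : Fin k =>
        (⟨f (eg M z (Sum.inr (e, q)) i), by
          have := hf (eg M z (Sum.inr (e, q)) i)
          rwa [LR_gad] at this⟩ : {c // c ∈ L e})) := by
      intro i j hij
      by_contra hc
      exact hp _ _ (adj_eg M z hr _ hc) (congrArg Subtype.val hij)
    have h2 : Function.Bijective (fun i : Fin k =>
        (⟨f (eg M z (Sum.inr (e, q)) i), by
          have := hf (eg M z (Sum.inr (e, q)) i)
          rwa [LR_gad] at this⟩ : {c // c ∈ L e})) := by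
      rw [Fintype.bijective_iff_injective_and_card]
      refine ⟨h1, ?_⟩
      rw [Fintype.card_fin, Fintype.card_coe, hL]
    obtain ⟨i, hi⟩ := h2.2 ⟨c, hc⟩
    exact ⟨i, congrArg Subtype.val hi⟩
  have ea : eg M z (Sum.inl (M.s e) : WT k r V E) (M.c e) =
      eg M z (Sum.inr (e, (1, false)) : WT k r V E) (M.c e) := by
    apply eg_mem
    change _ ∈ s(_, io M r z (M.c e) (Sum.inl (M.s e)))
    rw [io_inl_src]
    exact Sym2.mem_mk_right _ _
  have eb : eg M z (Sum.inl (M.t e) : WT k r V E) (M.c e) =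
      eg M z (Sum.inr (e, (sg r z, true)) : WT k r V E) (M.c e) := by
    apply eg_mem
    change _ ∈ s(_, io M r z (M.c e) (Sum.inl (M.t e)))
    rw [io_inl_tgt]
    exact Sym2.mem_mk_right _ _
  obtain ⟨c, hc⟩ : ∃ c, c = f (eg M z (Sum.inl (M.s e) : WT k r V E) (M.c e)) := ⟨_, rfl⟩
  rw [← hc] at hne
  have hcL : c ∈ L e := by
    have := hf (eg M z (Sum.inr (e, (1, false))) (M.c e))
    rw [LR_gad, ← ea, ← hc] at this
    exact this
  -- the partner of a vertex of the second side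
  have hF : ∀ y : Equiv.Perm (TW k r), ∃ (x : Equiv.Perm (TW k r)) (i : Fin k),
      io M r z i (Sum.inr (e, (y, true))) = Sum.inr (e, (x, false)) ∧
      f (eg M z (Sum.inr (e, (y, true))) i) = c := by
    intro y
    obtain ⟨i, hi⟩ := hall (y, true) c hcL
    refine ⟨y * sg r (Equiv.swap z (M.c e) i), i, ?_, hi⟩
    rw [io_in M z (by rintro ⟨-, -, h⟩; simp at h)]
    · rfl
    · rintro ⟨rfl, rfl, -⟩
      rw [← eb] at hi
      exact hne hi.symm
  choose F I hF1 hF2 using hF
  have hF3 : ∀ y, eg M z (Sum.inr (e, (y, true))) (I y) =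
      eg M z (Sum.inr (e, (F y, false))) (I y) := by
    intro y
    apply eg_mem
    change _ ∈ s(_, io M r z (I y) _)
    rw [hF1]
    exact Sym2.mem_mk_right _ _
  have hinj : Function.Injective F := by
    intro y y' h
    by_contra hyy
    have h1 := hF3 y
    have h2 := hF3 y'
    rw [← h] at h2
    have h3 : I y = I y' := by
      by_contra hI
      apply hp _ _ (adj_eg M z hr (Sum.inr (e, (F y, false))) hI)
      rw [← h1, ← h2, hF2, hF2]
    have h4 : io M r z (I y) (Sum.inr (e, (F y, false))) =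
        (Sum.inr (e, (y, true)) : WT k r V E) := by
      rw [← hF1 y, io_io]
    have h5 : io M r z (I y') (Sum.inr (e, (F y', false))) =
        (Sum.inr (e, (y', true)) : WT k r V E) := by
      rw [← hF1 y', io_io]
    rw [← h3, ← h, h4] at h5
    simp only [Sum.inr.injEq, Prod.mk.injEq, and_true, true_and] at h5
    exact hyy h5
  have hsurj : Function.Surjective F := Finite.surjective_of_injective hinj
  obtain ⟨y, hy⟩ := hsurj 1
  have h1 := hF3 y
  rw [hy] at h1
  have h2 : I y = M.c e := by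
    by_contra hI
    apply hp _ _ (adj_eg M z hr (Sum.inr (e, (1, false))) hI)
    rw [← h1, hF2, ← ea, hc]
  have h3 : io M r z (I y) (Sum.inr (e, (F y, false))) =
      (Sum.inr (e, (y, true)) : WT k r V E) := by
    rw [← hF1 y, io_io]
  rw [hy, h2, io_a] at h3
  simp at h3

/-- **from the replacement graph to the multigraph** -/
lemma back (hr : 1 ≤ r) {L : E → Finset ℕ} (hL : ∀ e, (L e).card = k)
    (h : LC (GR M r z) (LR M z L)) :
    ∃ c : E → ℕ, (∀ e, c e ∈ L e) ∧ ∀ e e', e ≠ e' →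
      (M.s e = M.s e' ∨ M.s e = M.t e' ∨ M.t e = M.s e' ∨ M.t e = M.t e') → c e ≠ c e' := by
  obtain ⟨f, hf, hp⟩ := h
  refine ⟨fun e => f (eg M z (Sum.inl (M.s e)) (M.c e)), fun e => ?_, ?_⟩
  · have := hf (eg M z (Sum.inl (M.s e)) (M.c e))
    rwa [LR_hub, M.ed_s] at this
  · have hw := wire M z hr hL hf hp
    -- the colour at any end
    have hv : ∀ e v, (M.s e = v ∨ M.t e = v) →
        f (eg M z (Sum.inl (M.s e)) (M.c e)) = f (eg M z (Sum.inl v) (M.c e)) := by
      rintro e v (rfl | rfl)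
      · rfl
      · exact hw e
    have key : ∀ e e' v, e ≠ e' → (M.s e = v ∨ M.t e = v) → (M.s e' = v ∨ M.t e' = v) →
        f (eg M z (Sum.inl (M.s e)) (M.c e)) ≠ f (eg M z (Sum.inl (M.s e')) (M.c e')) := by
      intro e e' v hne h1 h2
      rw [hv e v h1, hv e' v h2]
      apply hp
      apply adj_eg M z hr
      intro hc
      apply hne
      rw [← M.ed_eq h1 rfl, ← M.ed_eq h2 hc.symm]
    intro e e' hne h
    rcases h with h | h | h | h
    · exact key e e' (M.s e) hne (Or.inl rfl) (Or.inl h.symm)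
    · exact key e e' (M.s e) hne (Or.inl rfl) (Or.inr h.symm)
    · exact key e e' (M.t e) hne (Or.inr rfl) (Or.inl h.symm)
    · exact key e e' (M.t e) hne (Or.inr rfl) (Or.inr h.symm)

end Pool.Agent.Q228.LE
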