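import Pool.Agent.Q228.LE.Rep

/-!
# Girth and distances in the replacement graph
-/

set_option autoImplicit false

namespace Pool.Agent.Q228.LE

variable {k : ℕ} {V E : Type} (M : FM k V E) {r : ℕ} (z : Fin k)

/-- the vertices reachable from the vertex `v` in `t` steps -/
def Inv (v : V) (t : ℕ) (u : WT k r V E) : Prop :=
  u = Sum.inl v ∨ ∃ (e : E) (W : List (Fin k)) (b : Bool), Red W ∧ W.length ≤ t ∧
    u = Sum.inr (e, (pr r W, b)) ∧ (b = true ↔ Odd W.length) ∧
    ((M.s e = v ∧ W.head? ≠ some z) ∨ (M.t e = v ∧ W.head? = some z))

lemma inv_step (hr : 1 ≤ r) {v : V} {t : ℕ} (ht : t ≤ r) {u : WT k r V E} (h : Inv M z v t u)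
    (i : Fin k) : Inv M z v (t + 1) (io M r z i u) := by
  obtain rfl | ⟨e, W, b, hW, hl, rfl, hb, hh⟩ := h
  · by_cases h : M.s (M.ed v i) = v
    · rw [io_inl_s M z h]
      exact Or.inr ⟨M.ed v i, [], false, red_nil, by simp, rfl, by simp, Or.inl ⟨h, by simp⟩⟩
    · rw [io_inl_t M z h]
      exact Or.inr ⟨M.ed v i, [z], true, red_one z, by simp, by rw [pr_one], by simp,
        Or.inr ⟨(M.ed_spec v i).1.resolve_left h, by simp⟩⟩
  · by_cases h1 : i = M.c e ∧ pr r W = 1 ∧ b = false
    · obtain ⟨rfl, h2, rfl⟩ := h1
      have hn := eq_nil_of_pr hW (hl.trans ht) h2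
      subst hn
      rw [pr_nil, io_a]
      left
      rcases hh with hh | hh
      · rw [hh.1]
      · simp at hh
    · by_cases h2 : i = M.c e ∧ pr r W = sg r z ∧ b = true
      · obtain ⟨rfl, h3, rfl⟩ := h2
        have hn := eq_one_of_pr hr hW (hl.trans ht) h3
        subst hn
        rw [pr_one, io_b]
        left
        rcases hh with hh | hh
        · simp at hh
        · rw [hh.1]
      · rw [io_in M z h1 h2]
        right
        obtain ⟨j, hj⟩ : ∃ j, j = Equiv.swap z (M.c e) i := ⟨_, rfl⟩
        rw [← hj]
        have hjz : j = z ↔ i = M.c e := by rw [hj]; exact swap_z M z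
        by_cases hla : W.getLast? = some j
        · obtain ⟨W0, rfl⟩ : ∃ W0, W = W0 ++ [j] := by
            rw [List.getLast?_eq_some_iff] at hla
            exact hla
          refine ⟨e, W0, !b, red_of_append hW, ?_, ?_, ?_, ?_⟩
          · simp only [List.length_append, List.length_cons, List.length_nil] at hl
            omega
          · rw [pr_snoc, mul_assoc, sg_sg, mul_one]
          · simp only [List.length_append, List.length_cons, List.length_nil, zero_add,
              Nat.odd_add_one] at hb
            cases b <;> simp_all
          · cases W0 with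
            | nil =>
              simp only [List.nil_append, List.head?_cons, ne_eq, Option.some.injEq,
                List.head?_nil, reduceCtorEq, not_false_eq_true, and_true, and_false,
                or_false] at hh ⊢
              rcases hh with hh | hh
              · exact hh.1
              · exfalso
                apply h2
                refine ⟨hjz.1 hh.2, ?_, ?_⟩
                · rw [List.nil_append, pr_one, hh.2]
                · rw [hb]; simp
            | cons a W0 => simpa using hh
        · refine ⟨e, W ++ [j], !b, snoc_red hW hla, ?_, ?_, ?_, ?_⟩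
          · simp only [List.length_append, List.length_cons, List.length_nil]
            omega
          · rw [pr_snoc]
          · simp only [List.length_append, List.length_cons, List.length_nil, zero_add,
              Nat.odd_add_one]
            cases b <;> simp_all
          · cases W with
            | nil =>
              simp only [List.head?_nil, ne_eq, reduceCtorEq, not_false_eq_true, and_true,
                and_false, or_false, List.nil_append, List.head?_cons, Option.some.injEq] at hh ⊢
              left
              refine ⟨hh, fun hz => h1 ⟨hjz.1 hz, pr_nil r, ?_⟩⟩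
              simpa using hb
            | cons a W0 => simpa using hh

lemma inv_walk (hr : 1 ≤ r) {v : V} {u u' : WT k r V E} (p : (GR M r z).Walk u u') {t : ℕ}
    (h : Inv M z v t u) (ht : t + p.length ≤ r) : Inv M z v (t + p.length) u' := by
  induction p generalizing t with
  | nil => simpa using h
  | @cons u w v ha p ih =>
    simp only [SimpleGraph.Walk.length_cons] at ht ⊢
    have ha' : ∃ i, io M r z i u = w := ha
    obtain ⟨i, hi⟩ := ha'
    have h0 := inv_step M z hr (by omega) h i
    rw [hi] at h0
    have h1 := ih h0 (by omega)
    rwa [add_assoc, add_comm 1] at h1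

/-- **different vertices of the multigraph are far apart** -/
lemma far (hr : 1 ≤ r) {v v' : V} (hv : v ≠ v')
    (p : (GR M r z).Walk (Sum.inl v) (Sum.inl v')) : r + 1 ≤ p.length := by
  by_contra hc
  have h := inv_walk M z hr p (t := 0) (Or.inl rfl) (by omega)
  rcases h with h | ⟨e, W, b, -, -, h, -⟩
  · simp at h
    exact hv h.symm
  · simp at h

/-- the end of the walk with given letters -/
noncomputable def run (u : WT k r V E) (is : List (Fin k)) : WT k r V E :=
  is.foldl (fun w i => io M r z i w) u

lemma run_snoc (u : WT k r V E) (is : List (Fin k)) (i : Fin k) :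
    run M z u (is ++ [i]) = io M r z i (run M z u is) := by
  unfold run; simp

lemma run_cons (u : WT k r V E) (is : List (Fin k)) (i : Fin k) :
    run M z u (i :: is) = run M z (io M r z i u) is := rfl

lemma letters {u v : WT k r V E} (p : (GR M r z).Walk u v) (hp : p.IsTrail) :
    ∃ is : List (Fin k), is.length = p.length ∧ Red is ∧ run M z u is = v ∧
      (∀ n, run M z u (is.take n) ∈ p.support) ∧
      ∀ i, is.head? = some i → s(u, io M r z i u) ∈ p.edges := by
  induction p with
  | nil => exact ⟨[], rfl, red_nil, rfl, fun n => by simp [run], by simp⟩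
  | @cons u w v ha p ih =>
    rw [SimpleGraph.Walk.isTrail_cons] at hp
    obtain ⟨is, h1, h2, h3, h4, h5⟩ := ih hp.1
    have ha' : ∃ i, io M r z i u = w := ha
    obtain ⟨i0, hi0⟩ := ha'
    refine ⟨i0 :: is, by simp [h1], ?_, ?_, ?_, ?_⟩
    · rw [red_cons]
      refine ⟨fun hc => hp.2 ?_, h2⟩
      have h6 := h5 i0 hc
      have h7 : io M r z i0 w = u := by rw [← hi0, io_io]
      rw [h7] at h6
      rw [Sym2.eq_swap]
      exact h6
    · rw [run_cons, hi0, h3]
    · intro n
      cases n with
      | zero => simp [run]
      | succ n =>
        rw [List.take_succ_cons, run_cons, hi0, SimpleGraph.Walk.support_cons]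
        exact List.mem_cons_of_mem _ (h4 n)
    · intro i hi
      simp only [List.head?_cons, Option.some.injEq] at hi
      subst hi
      rw [hi0, SimpleGraph.Walk.edges_cons]
      exact List.mem_cons_self

lemma map_red {w : List (Fin k)} (h : Red w) (σ : Equiv.Perm (Fin k)) : Red (w.map σ) := by
  unfold Red at *
  rw [List.isChain_map]
  exact h.imp fun a b hab hc => hab (σ.injective hc)

lemma run_hub (hr : 1 ≤ r) (v : V) (i0 : Fin k) (is : List (Fin k)) (h : Red (i0 :: is))
    (hl : is.length + 1 ≤ r) :
    ∃ (W : List (Fin k)) (b : Bool), run M z (Sum.inl v) (i0 :: is) =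
      (Sum.inr (M.ed v i0, (pr r W, b)) : WT k r V E) ∧
      (W = is.map (Equiv.swap z i0) ∨ W = z :: is.map (Equiv.swap z i0)) := by
  induction is using List.reverseRecOn with
  | nil =>
    by_cases h : M.s (M.ed v i0) = v
    · exact ⟨[], false, io_inl_s M z h, Or.inl rfl⟩
    · exact ⟨[z], true, by rw [pr_one]; exact io_inl_t M z h, Or.inr rfl⟩
  | append_singleton is i ih =>
    have hR : Red (i0 :: is) := by
      rw [← List.cons_append] at h
      exact red_of_append h
    simp only [List.length_append, List.length_cons, List.length_nil] at hl
    obtain ⟨W, b, hW, hW2⟩ := ih hR (by omega)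
    have hc := M.ed_c v i0
    have hσ : Equiv.swap z i0 i0 = z := Equiv.swap_apply_right z i0
    have hhd : ∀ l : List (Fin k), l.head? ≠ some i0 → (l.map (Equiv.swap z i0)).head? ≠ some z := by
      intro l hl hc
      cases l with
      | nil => simp at hc
      | cons a l =>
        simp only [List.map_cons, List.head?_cons, Option.some.injEq] at hc
        have h9 : Equiv.swap z i0 a = Equiv.swap z i0 i0 := hc.trans hσ.symm
        apply hl
        rw [List.head?_cons, (Equiv.swap z i0).injective h9]
    have hR1 := red_cons.1 hR
    have hWR : Red W := by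
      rcases hW2 with rfl | rfl
      · exact map_red hR1.2 _
      · exact red_cons.2 ⟨hhd _ hR1.1, map_red hR1.2 _⟩
    have hWl : W.length ≤ r := by
      rcases hW2 with rfl | rfl
      · rw [List.length_map]; omega
      · rw [List.length_cons, List.length_map]; omega
    -- the letter is not an exit
    have hex : ¬ (i = M.c (M.ed v i0) ∧ (pr r W = 1 ∨ pr r W = sg r z)) := by
      rintro ⟨hi, hp⟩
      rw [hc] at hi
      subst hi
      have hnil : is = [] := by
        rcases hp with hp | hp
        · have := eq_nil_of_pr hWR hWl hp
          rcases hW2 with h3 | h3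
          · rw [this] at h3
            simpa using h3.symm
          · rw [this] at h3
            simp at h3
        · have := eq_one_of_pr hr hWR hWl hp
          rcases hW2 with h3 | h3
          · exfalso
            rw [this] at h3
            have h4 := hhd is hR1.1
            rw [← h3] at h4
            simp at h4
          · rw [this] at h3
            simpa using h3.symm
      subst hnil
      have := (red_cons.1 h).1
      simp at this
    rw [← List.cons_append, run_snoc, hW, io_in M z (fun hh => hex ⟨hh.1, Or.inl hh.2.1⟩)
      (fun hh => hex ⟨hh.1, Or.inr hh.2.1⟩), hc]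
    refine ⟨W ++ [Equiv.swap z i0 i], !b, by rw [pr_snoc], ?_⟩
    rcases hW2 with rfl | rfl
    · left; simp
    · right; simp

lemma run_in (e : E) (x : Equiv.Perm (TW k r)) (b : Bool) (is : List (Fin k))
    (h : ∀ n v, run M z (Sum.inr (e, (x, b))) (is.take n) ≠ Sum.inl v) :
    ∃ b', run M z (Sum.inr (e, (x, b))) is =
      Sum.inr (e, (x * pr r (is.map (Equiv.swap z (M.c e))), b')) := by
  induction is using List.reverseRecOn with
  | nil => exact ⟨b, by simp [run, pr_nil]⟩
  | append_singleton is i ih =>
    obtain ⟨b', hb'⟩ := ih (by
      intro n v hc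
      rcases Nat.le_total n is.length with hn | hn
      · apply h n v
        rw [List.take_append_of_le_length hn]
        exact hc
      · apply h is.length v
        rw [List.take_append_of_le_length le_rfl, List.take_length]
        rwa [List.take_of_length_le hn] at hc)
    rw [run_snoc, hb']
    have h1 := h (is.length + 1)
    rw [List.take_of_length_le (by simp), run_snoc, hb'] at h1
    by_cases h2 : i = M.c e ∧ x * pr r (is.map (Equiv.swap z (M.c e))) = 1 ∧ b' = false
    · exfalso
      obtain ⟨rfl, h3, rfl⟩ := h2
      rw [h3, io_a] at h1
      exact h1 _ rfl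
    · by_cases h3 : i = M.c e ∧ x * pr r (is.map (Equiv.swap z (M.c e))) = sg r z ∧ b' = true
      · exfalso
        obtain ⟨rfl, h3, rfl⟩ := h3
        rw [h3, io_b] at h1
        exact h1 _ rfl
      · rw [io_in M z h2 h3]
        refine ⟨!b', ?_⟩
        rw [List.map_append, List.map_singleton, pr_snoc, mul_assoc]

/-- **the girth is larger than `r`** -/
lemma girth (hr : 1 ≤ r) {u : WT k r V E} (p : (GR M r z).Walk u u) (hp : p.IsCycle) :
    r + 1 ≤ p.length := by
  by_contra hcon
  have hlen : p.length ≤ r := by omega
  by_cases hub : ∃ v, Sum.inl v ∈ p.support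
  · obtain ⟨v, hv⟩ := hub
    classical
    have hq := hp.rotate hv
    have hql : (p.rotate _ hv).length = p.length := by
      rw [← SimpleGraph.Walk.length_edges, ← SimpleGraph.Walk.length_edges]
      exact (p.rotate_edges _ hv).perm.length_eq
    obtain ⟨is, h1, h2, h3, -, -⟩ := letters M z (p.rotate _ hv) hq.isTrail
    have h4 := hq.three_le_length
    cases is with
    | nil =>
      simp only [List.length_nil] at h1
      omega
    | cons i0 is =>
      simp only [List.length_cons] at h1
      obtain ⟨W, b, hW, -⟩ := run_hub M z hr v i0 is h2 (by omega)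
      rw [h3] at hW
      simp at hW
  · push Not at hub
    obtain v | ⟨e, x, b⟩ := u
    · exact hub v p.start_mem_support
    · obtain ⟨is, h1, h2, h3, h4, -⟩ := letters M z p hp.isTrail
      obtain ⟨b', hb'⟩ := run_in M z e x b is (by
        intro n v hc
        have := h4 n
        rw [hc] at this
        exact hub v this)
      rw [h3] at hb'
      simp only [Sum.inr.injEq, Prod.mk.injEq, true_and] at hb'
      have h5 : pr r (is.map (Equiv.swap z (M.c e))) = 1 := by
        have := hb'.1
        rwa [left_eq_mul] at this
      have h6 := eq_nil_of_pr (map_red h2 _) (by rw [List.length_map, h1]; exact hlen) h5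
      have h7 := hp.three_le_length
      rw [List.map_eq_nil_iff] at h6
      rw [h6] at h1
      simp only [List.length_nil] at h1
      omega

end Pool.Agent.Q228.LE
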