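import Pool.Agent.Q228.LE.Col

/-!
# The reduction: multigraphs from nearly bipartite regular graphs of large girth
-/

set_option autoImplicit false

namespace Pool.Agent.Q228.LE

open SimpleGraph

/-- two edges of a multigraph (with ends `s e`, `t e`) have a common end -/
def Touch {V E : Type} (s t : E → V) (e e' : E) : Prop :=
  s e = s e' ∨ s e = t e' ∨ t e = s e' ∨ t e = t e'

/-- proper edge colourings of multigraphs -/
def Pr {V E C : Type} (s t : E → V) (f : E → C) : Prop :=
  ∀ e e', e ≠ e' → Touch s t e e' → f e ≠ f e'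

/-- the conjecture for simple graphs and `k` colours -/
def Simp (k : ℕ) : Prop :=
  ∀ (V : Type) [Fintype V] (G : SimpleGraph V), G.lineGraph.Colorable k →
    ∀ L : G.edgeSet → Finset ℕ, (∀ e, k ≤ (L e).card) → LC G L

/-- the conjecture for multigraphs and `k` colours -/
def Mult (k : ℕ) : Prop :=
  ∀ (V E : Type) [Fintype V] [Fintype E] (s t : E → V), (∀ e, s e ≠ t e) →
    (∃ c : E → Fin k, Pr s t c) → ∀ L : E → Finset ℕ, (∀ e, k ≤ (L e).card) →
      ∃ f : E → ℕ, (∀ e, f e ∈ L e) ∧ Pr s t f

/-- the restricted version -/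
def Restr (k g : ℕ) : Prop :=
  ∀ (V : Type) [Fintype V] (G : SimpleGraph V) (S : Set V) (L : G.edgeSet → Finset ℕ),
    G.lineGraph.Colorable k →
    (∀ v, (G.neighborSet v).ncard = k) →
    (g : ℕ∞) ≤ G.egirth →
    (∀ u ∈ S, ∀ v ∈ S, u ≠ v → (g : ℕ∞) ≤ G.edist u v) →
    (G.induce Sᶜ).Colorable 2 →
    (∀ e, (L e).card = k) →
    (∀ v ∉ S, ∀ e e' : G.edgeSet, v ∈ e.1 → v ∈ e'.1 → L e = L e') →
    LC G L

lemma restr_fm {k g : ℕ} (h : Restr k g) {V E : Type} [Fintype V] [Fintype E] (M : FM k V E)
    (z : Fin k) {L : E → Finset ℕ} (hL : ∀ e, (L e).card = k) :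
    ∃ c : E → ℕ, (∀ e, c e ∈ L e) ∧ Pr M.s M.t c := by
  classical
  have hr : 1 ≤ g + 1 := by omega
  refine back M (r := g + 1) z hr hL (h (WT k (g + 1) V E) (GR M (g + 1) z)
    (Set.range Sum.inl) (LR M z L) (colorable M z hr) (ncard_nbr M z hr) ?_ ?_
    (bipartite M z) (LR_card M z hL) ?_)
  · rw [SimpleGraph.le_egirth]
    intro a w hw
    have := girth M z hr w hw
    exact_mod_cast (by omega : g ≤ w.length)
  · rintro _ ⟨u, rfl⟩ _ ⟨v, rfl⟩ huv
    unfold SimpleGraph.edist
    refine le_iInf fun w => ?_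
    have := far M z hr (v := u) (v' := v) (fun hh => huv (by rw [hh])) w
    exact_mod_cast (by omega : g ≤ w.length)
  · rintro (v | ⟨e0, q⟩) hv e e' he he'
    · exact absurd ⟨v, rfl⟩ hv
    · obtain ⟨u, i, rfl⟩ := eg_surj M z e
      obtain ⟨u', j, rfl⟩ := eg_surj M z e'
      rw [eg_mem M z he, eg_mem M z he', LR_gad, LR_gad]

/-- the doubled multigraph with all missing edges -/
def DB {k : ℕ} {V E : Type} (s t : E → V) (c : E → Fin k) : Type :=
  (E × Bool) ⊕ {p : V × Fin k // ∀ e, (s e = p.1 ∨ t e = p.1) → c e ≠ p.2}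

/-- regularisation of a coloured multigraph -/
def reg {k : ℕ} {V E : Type} (s t : E → V) (hst : ∀ e, s e ≠ t e) (c : E → Fin k)
    (hc : Pr s t c) : FM k (V × Bool) (DB s t c) where
  s := fun x => match x with
    | Sum.inl (e, b) => (s e, b)
    | Sum.inr p => (p.1.1, false)
  t := fun x => match x with
    | Sum.inl (e, b) => (t e, b)
    | Sum.inr p => (p.1.1, true)
  c := fun x => match x with
    | Sum.inl (e, _) => c e
    | Sum.inr p => p.1.2
  ne := by
    rintro (⟨e, b⟩ | p)
    · intro h
      exact hst e (congrArg Prod.fst h)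
    · intro h
      have := congrArg Prod.snd h
      simp at this
  full := by
    rintro ⟨v, b⟩ i
    by_cases h : ∃ e, (s e = v ∨ t e = v) ∧ c e = i
    · obtain ⟨e, he, hi⟩ := h
      refine ⟨Sum.inl (e, b), ⟨?_, hi⟩, ?_⟩
      · rcases he with he | he
        · left; change (s e, b) = (v, b); rw [he]
        · right; change (t e, b) = (v, b); rw [he]
      · rintro (⟨e', b'⟩ | p) ⟨h1, h2⟩
        · have h3 : (s e' = v ∨ t e' = v) ∧ b' = b := by
            rcases h1 with h1 | h1
            · have h1' : (s e', b') = (v, b) := h1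
              rw [Prod.mk.injEq] at h1'
              exact ⟨Or.inl h1'.1, h1'.2⟩
            · have h1' : (t e', b') = (v, b) := h1
              rw [Prod.mk.injEq] at h1'
              exact ⟨Or.inr h1'.1, h1'.2⟩
          have h4 : e' = e := by
            by_contra hne
            refine hc e' e hne ?_ ((h2 : c e' = i).trans hi.symm)
            unfold Touch
            rcases h3.1 with h5 | h5 <;> rcases he with h6 | h6
            · left; rw [h5, h6]
            · right; left; rw [h5, h6]
            · right; right; left; rw [h5, h6]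
            · right; right; right; rw [h5, h6]
          rw [h4, h3.2]
        · exfalso
          have h3 : p.1.1 = v := by
            rcases h1 with h1 | h1 <;> exact congrArg Prod.fst h1
          have h4 : p.1.2 = i := h2
          refine p.2 e ?_ ?_
          · rw [h3]; exact he
          · rw [h4]; exact hi
    · push Not at h
      refine ⟨Sum.inr ⟨(v, i), h⟩, ⟨?_, rfl⟩, ?_⟩
      · cases b
        · left; rfl
        · right; rfl
      · rintro (⟨e', b'⟩ | p) ⟨h1, h2⟩
        · exfalso
          refine h e' ?_ h2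
          rcases h1 with h1 | h1
          · exact Or.inl (congrArg Prod.fst h1)
          · exact Or.inr (congrArg Prod.fst h1)
        · have h3 : p.1.1 = v := by
            rcases h1 with h1 | h1 <;> exact congrArg Prod.fst h1
          have h4 : p.1.2 = i := h2
          have h5 : p = ⟨(v, i), h⟩ := Subtype.ext (Prod.ext h3 h4)
          rw [h5]

theorem mult_of_restr {k g : ℕ} (h : Restr k g) : Mult k := by
  classical
  intro V E _ _ s t hst ⟨c, hc⟩ L hL
  rcases Nat.eq_zero_or_pos k with rfl | hk
  · have : IsEmpty E := ⟨fun e => (c e).elim0⟩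
    exact ⟨fun _ => 0, fun e => isEmptyElim e, fun e => isEmptyElim e⟩
  · have hL2 : ∀ e, ∃ T ⊆ L e, T.card = k := fun e => Finset.exists_subset_card_eq (hL e)
    choose T hT1 hT2 using hL2
    have : Finite (DB s t c) := by unfold DB; infer_instance
    let _ : Fintype (DB s t c) := Fintype.ofFinite _
    obtain ⟨f, hf1, hf2⟩ := restr_fm h (reg s t hst c hc) ⟨0, hk⟩
      (L := fun x => match x with
        | Sum.inl (e, _) => T e
        | Sum.inr _ => Finset.range k) (by
        rintro (⟨e, b⟩ | p)
        · exact hT2 e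
        · exact Finset.card_range k)
    refine ⟨fun e => f (Sum.inl (e, false)), fun e => hT1 e (hf1 (Sum.inl (e, false))), ?_⟩
    intro e e' hne htt
    refine hf2 (Sum.inl (e, false)) (Sum.inl (e', false)) ?_ ?_
    · intro hh
      have hh1 : (Sum.inl (e, false) : (E × Bool) ⊕
        {p : V × Fin k // ∀ e, (s e = p.1 ∨ t e = p.1) → c e ≠ p.2}) = Sum.inl (e', false) := hh
      rw [Sum.inl.injEq, Prod.mk.injEq] at hh1
      exact hne hh1.1
    · rcases htt with h1 | h1 | h1 | h1
      · left; change (s e, false) = (s e', false); rw [h1]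
      · right; left; change (s e, false) = (t e', false); rw [h1]
      · right; right; left; change (t e, false) = (s e', false); rw [h1]
      · right; right; right; change (t e, false) = (t e', false); rw [h1]

theorem simp_of_mult {k : ℕ} (h : Mult k) : Simp k := by
  classical
  intro V _ G hG L hL
  obtain ⟨c⟩ := hG
  have hmem : ∀ (e : G.edgeSet) (v : V), v ∈ e.1 ↔ (Quot.out e.1).1 = v ∨ (Quot.out e.1).2 = v := by
    intro e v
    have h1 : s((Quot.out e.1).1, (Quot.out e.1).2) = e.1 := Quot.out_eq _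
    conv_lhs => rw [← h1]
    rw [Sym2.mem_iff]
    constructor
    · rintro (h | h)
      · exact Or.inl h.symm
      · exact Or.inr h.symm
    · rintro (h | h)
      · exact Or.inl h.symm
      · exact Or.inr h.symm
  have hadj : ∀ e e' : G.edgeSet, G.lineGraph.Adj e e' ↔ e ≠ e' ∧
      Touch (fun e : G.edgeSet => (Quot.out e.1).1) (fun e : G.edgeSet => (Quot.out e.1).2) e e' := by
    intro e e'
    rw [lineGraph_adj_iff_exists]
    refine and_congr_right fun _ => ?_
    unfold Touch
    constructor
    · rintro ⟨v, h1, h2⟩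
      rw [hmem] at h1 h2
      rcases h1 with h1 | h1 <;> rcases h2 with h2 | h2
      · left; exact h1.trans h2.symm
      · right; left; exact h1.trans h2.symm
      · right; right; left; exact h1.trans h2.symm
      · right; right; right; exact h1.trans h2.symm
    · rintro (h1 | h1 | h1 | h1)
      · exact ⟨_, (hmem e _).2 (Or.inl rfl), (hmem e' _).2 (Or.inl h1.symm)⟩
      · exact ⟨_, (hmem e _).2 (Or.inl rfl), (hmem e' _).2 (Or.inr h1.symm)⟩
      · exact ⟨_, (hmem e _).2 (Or.inr rfl), (hmem e' _).2 (Or.inl h1.symm)⟩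
      · exact ⟨_, (hmem e _).2 (Or.inr rfl), (hmem e' _).2 (Or.inr h1.symm)⟩
  let _ : Fintype G.edgeSet := Fintype.ofFinite _
  obtain ⟨f, hf1, hf2⟩ := h V G.edgeSet (fun e => (Quot.out e.1).1) (fun e => (Quot.out e.1).2)
    (by
      intro e he
      have h1 : s((Quot.out e.1).1, (Quot.out e.1).2) = e.1 := Quot.out_eq _
      have h2 := e.2
      rw [← h1, mem_edgeSet] at h2
      exact h2.ne he)
    ⟨c, fun e e' hne ht => c.valid ((hadj e e').2 ⟨hne, ht⟩)⟩ L hL
  exact ⟨f, hf1, fun e e' ha => hf2 e e' ((hadj e e').1 ha).1 ((hadj e e').1 ha).2⟩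

theorem restr_of_simp {k : ℕ} (h : Simp k) (g : ℕ) : Restr k g := by
  intro V _ G S L h1 _ _ _ _ h2 _
  exact h V G h1 L (fun e => (h2 e).ge)

theorem q1_iff : (∀ (V : Type) [Fintype V] (G : SimpleGraph V) (k : ℕ),
      G.lineGraph.Colorable k ↔
        ∀ L : G.edgeSet → Finset ℕ, (∀ e, k ≤ (L e).card) → LC G L) ↔ ∀ k, Simp k := by
  constructor
  · intro h k V _ G hG
    exact (h V G k).1 hG
  · intro h V _ G k
    refine ⟨fun hG => h k V G hG, fun hL => ?_⟩
    obtain ⟨f, hf1, hf2⟩ := hL (fun _ => Finset.range k) (fun e => by simp)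
    exact ⟨Coloring.mk (fun e => (⟨f e, by simpa using hf1 e⟩ : Fin k)) (by
      intro e e' ha hh
      exact hf2 e e' ha (congrArg Fin.val hh))⟩

end Pool.Agent.Q228.LE
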