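import Pool.Agent.Q228.LE.Word

/-!
# Replacing the edges of a coloured multigraph by bipartite gadgets of large girth
-/

set_option autoImplicit false

namespace Pool.Agent.Q228.LE

/-- a loopless multigraph with a proper edge colouring with the colours `Fin k` such that every
colour is present at every vertex -/
structure FM (k : ℕ) (V E : Type) where
  s : E → V
  t : E → V
  c : E → Fin k
  ne : ∀ e, s e ≠ t e
  full : ∀ v i, ∃! e, (s e = v ∨ t e = v) ∧ c e = i

variable {k : ℕ} {V E : Type}

namespace FM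

variable (M : FM k V E)

/-- the edge of colour `i` at `v` -/
noncomputable def ed (v : V) (i : Fin k) : E := (M.full v i).choose

lemma ed_spec (v : V) (i : Fin k) : (M.s (M.ed v i) = v ∨ M.t (M.ed v i) = v) ∧
    M.c (M.ed v i) = i := (M.full v i).choose_spec.1

lemma ed_eq {v : V} {i : Fin k} {e : E} (h : M.s e = v ∨ M.t e = v) (hc : M.c e = i) :
    M.ed v i = e := ((M.full v i).choose_spec.2 e ⟨h, hc⟩).symm

lemma ed_c (v : V) (i : Fin k) : M.c (M.ed v i) = i := (M.ed_spec v i).2

lemma ed_s (e : E) : M.ed (M.s e) (M.c e) = e := M.ed_eq (Or.inl rfl) rfl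

lemma ed_t (e : E) : M.ed (M.t e) (M.c e) = e := M.ed_eq (Or.inr rfl) rfl

end FM

/-- the vertices of the replacement -/
abbrev WT (k r : ℕ) (V E : Type) : Type := V ⊕ (E × (Equiv.Perm (TW k r) × Bool))

open Classical in
/-- the neighbour of colour `i` -/
noncomputable def io (M : FM k V E) (r : ℕ) (z i : Fin k) : WT k r V E → WT k r V E
  | Sum.inl v => if M.s (M.ed v i) = v then Sum.inr (M.ed v i, (1, false))
      else Sum.inr (M.ed v i, (sg r z, true))
  | Sum.inr (e, (x, b)) =>
      if i = M.c e ∧ x = 1 ∧ b = false then Sum.inl (M.s e)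
      else if i = M.c e ∧ x = sg r z ∧ b = true then Sum.inl (M.t e)
      else Sum.inr (e, (x * sg r (Equiv.swap z (M.c e) i), !b))

variable (M : FM k V E) {r : ℕ} (z : Fin k)

lemma swap_z {i : Fin k} {e : E} : Equiv.swap z (M.c e) i = z ↔ i = M.c e := by
  constructor
  · intro h
    have h1 := congrArg (Equiv.swap z (M.c e)) h
    rw [Equiv.swap_apply_self, Equiv.swap_apply_left] at h1
    exact h1
  · rintro rfl
    exact Equiv.swap_apply_right z _

lemma io_inl_s {i : Fin k} {v : V} (h : M.s (M.ed v i) = v) :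
    io M r z i (Sum.inl v) = Sum.inr (M.ed v i, (1, false)) := if_pos h

lemma io_inl_t {i : Fin k} {v : V} (h : M.s (M.ed v i) ≠ v) :
    io M r z i (Sum.inl v) = Sum.inr (M.ed v i, (sg r z, true)) := if_neg h

lemma io_a (e : E) : io M r z (M.c e) (Sum.inr (e, (1, false))) = Sum.inl (M.s e) :=
  if_pos ⟨rfl, rfl, rfl⟩

lemma io_b (e : E) : io M r z (M.c e) (Sum.inr (e, (sg r z, true))) = Sum.inl (M.t e) :=
  (if_neg (by rintro ⟨-, -, h⟩; simp at h)).trans (if_pos ⟨rfl, rfl, rfl⟩)

lemma io_in {i : Fin k} {e : E} {x : Equiv.Perm (TW k r)} {b : Bool}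
    (h1 : ¬ (i = M.c e ∧ x = 1 ∧ b = false)) (h2 : ¬ (i = M.c e ∧ x = sg r z ∧ b = true)) :
    io M r z i (Sum.inr (e, (x, b))) =
      Sum.inr (e, (x * sg r (Equiv.swap z (M.c e) i), !b)) :=
  (if_neg h1).trans (if_neg h2)

lemma io_inl_src (e : E) : io M r z (M.c e) (Sum.inl (M.s e)) = Sum.inr (e, (1, false)) := by
  have h := M.ed_s e
  rw [io_inl_s M z (by rw [h]), h]

lemma io_inl_tgt (e : E) :
    io M r z (M.c e) (Sum.inl (M.t e)) = Sum.inr (e, (sg r z, true)) := by
  have h := M.ed_t e
  rw [io_inl_t M z (by rw [h]; exact M.ne e), h]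

lemma io_io (i : Fin k) (w : WT k r V E) : io M r z i (io M r z i w) = w := by
  obtain v | ⟨e, x, b⟩ := w
  · by_cases h : M.s (M.ed v i) = v
    · rw [io_inl_s M z h]
      have h1 := io_a M (r := r) z (M.ed v i)
      rw [M.ed_c] at h1
      rw [h1, h]
    · rw [io_inl_t M z h]
      have h1 := io_b M (r := r) z (M.ed v i)
      rw [M.ed_c] at h1
      rw [h1, (M.ed_spec v i).1.resolve_left h]
  · by_cases h1 : i = M.c e ∧ x = 1 ∧ b = false
    · obtain ⟨rfl, rfl, rfl⟩ := h1
      rw [io_a, io_inl_src]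
    · by_cases h2 : i = M.c e ∧ x = sg r z ∧ b = true
      · obtain ⟨rfl, rfl, rfl⟩ := h2
        rw [io_b, io_inl_tgt]
      · rw [io_in M z h1 h2, io_in M z]
        · rw [mul_assoc, sg_sg, mul_one, Bool.not_not]
        · rintro ⟨hi, hx, hb⟩
          rw [(swap_z M z).2 hi] at hx
          apply h2
          refine ⟨hi, ?_, by simpa using hb⟩
          calc x = x * (sg r z * sg r z) := by rw [sg_sg, mul_one]
            _ = sg r z := by rw [← mul_assoc, hx, one_mul]
        · rintro ⟨hi, hx, hb⟩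
          rw [(swap_z M z).2 hi] at hx
          apply h1
          exact ⟨hi, by simpa using hx, by simpa using hb⟩

lemma io_ne (i : Fin k) (w : WT k r V E) : io M r z i w ≠ w := by
  obtain v | ⟨e, x, b⟩ := w
  · by_cases h : M.s (M.ed v i) = v
    · rw [io_inl_s M z h]; simp
    · rw [io_inl_t M z h]; simp
  · by_cases h1 : i = M.c e ∧ x = 1 ∧ b = false
    · obtain ⟨rfl, rfl, rfl⟩ := h1
      rw [io_a]; simp
    · by_cases h2 : i = M.c e ∧ x = sg r z ∧ b = true
      · obtain ⟨rfl, rfl, rfl⟩ := h2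
        rw [io_b]; simp
      · rw [io_in M z h1 h2]
        intro h
        simp at h

lemma io_inj (hr : 1 ≤ r) {i j : Fin k} {w : WT k r V E} (h : io M r z i w = io M r z j w) :
    i = j := by
  obtain v | ⟨e, x, b⟩ := w
  · have h1 : M.ed v i = M.ed v j := by
      by_cases hi : M.s (M.ed v i) = v <;> by_cases hj : M.s (M.ed v j) = v
      · rw [io_inl_s M z hi, io_inl_s M z hj] at h
        simpa using h
      · rw [io_inl_s M z hi, io_inl_t M z hj] at h
        simp at h
      · rw [io_inl_t M z hi, io_inl_s M z hj] at h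
        simp at h
      · rw [io_inl_t M z hi, io_inl_t M z hj] at h
        simpa using h
    rw [← M.ed_c v i, ← M.ed_c v j, h1]
  · by_cases h1 : i = M.c e ∧ x = 1 ∧ b = false
    · by_cases h2 : j = M.c e ∧ x = 1 ∧ b = false
      · rw [h1.1, h2.1]
      · obtain ⟨rfl, rfl, rfl⟩ := h1
        rw [io_a, io_in M z h2 (by rintro ⟨-, -, h⟩; simp at h)] at h
        simp at h
    · by_cases h2 : i = M.c e ∧ x = sg r z ∧ b = true
      · by_cases h3 : j = M.c e ∧ x = sg r z ∧ b = true
        · rw [h2.1, h3.1]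
        · obtain ⟨rfl, rfl, rfl⟩ := h2
          rw [io_b, io_in M z (by rintro ⟨-, -, h⟩; simp at h) h3] at h
          simp at h
      · rw [io_in M z h1 h2] at h
        by_cases h3 : j = M.c e ∧ x = 1 ∧ b = false
        · obtain ⟨rfl, rfl, rfl⟩ := h3
          rw [io_a] at h
          simp at h
        · by_cases h4 : j = M.c e ∧ x = sg r z ∧ b = true
          · obtain ⟨rfl, rfl, rfl⟩ := h4
            rw [io_b] at h
            simp at h
          · rw [io_in M z h3 h4] at h
            simp only [Sum.inr.injEq, Prod.mk.injEq, mul_right_inj, true_and, and_true] at h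
            exact (Equiv.swap z (M.c e)).injective (sg_inj hr h)

/-- the replacement graph -/
def GR (M : FM k V E) (r : ℕ) (z : Fin k) : SimpleGraph (WT k r V E) where
  Adj v u := ∃ i, io M r z i v = u
  symm := ⟨fun v u ⟨i, h⟩ => ⟨i, by rw [← h, io_io]⟩⟩
  loopless := ⟨fun v ⟨i, h⟩ => io_ne M z i v h⟩

end Pool.Agent.Q228.LE
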