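import Mathlib

/-!
# Reduced words acting on the reduced words of bounded length
-/

set_option autoImplicit false

namespace Pool.Agent.Q228.LE

/-- reduced words: consecutive letters are different -/
def Red {k : ℕ} (w : List (Fin k)) : Prop := w.IsChain (· ≠ ·)

/-- reduced words of length at most `r` -/
def TW (k r : ℕ) : Type := {w : List (Fin k) // Red w ∧ w.length ≤ r}

instance (k r : ℕ) : Finite (TW k r) := by
  have h : {w : List (Fin k) | w.length ≤ r}.Finite := List.finite_length_le (Fin k) r
  have h2 : {w : List (Fin k) | Red w ∧ w.length ≤ r}.Finite := h.subset fun w hw => hw.2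
  exact h2.to_subtype

noncomputable instance (k r : ℕ) : Fintype (TW k r) := Fintype.ofFinite _

noncomputable instance (k r : ℕ) : DecidableEq (TW k r) := Classical.decEq _

variable {k : ℕ}

/-- the action of a letter -/
def actL (r : ℕ) (i : Fin k) (w : List (Fin k)) : List (Fin k) :=
  if w.head? = some i then w.tail else if w.length < r then i :: w else w

lemma red_cons {i : Fin k} {w : List (Fin k)} : Red (i :: w) ↔ w.head? ≠ some i ∧ Red w := by
  unfold Red
  cases w with
  | nil => simp
  | cons j w => simp [List.isChain_cons_cons, eq_comm]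

lemma actL_red {r : ℕ} {i : Fin k} {w : List (Fin k)} (h : Red w ∧ w.length ≤ r) :
    Red (actL r i w) ∧ (actL r i w).length ≤ r := by
  obtain ⟨h1, h2⟩ := h
  unfold actL
  split_ifs with c1 c2
  · cases w with
    | nil => simp at c1
    | cons j w =>
      refine ⟨(red_cons.1 h1).2, ?_⟩
      simp only [List.length_cons, List.tail_cons] at h2 ⊢
      omega
  · exact ⟨red_cons.2 ⟨c1, h1⟩, by simp only [List.length_cons]; omega⟩
  · exact ⟨h1, h2⟩

lemma actL_actL {r : ℕ} {i : Fin k} {w : List (Fin k)} (h : Red w ∧ w.length ≤ r) :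
    actL r i (actL r i w) = w := by
  obtain ⟨h1, h2⟩ := h
  by_cases c1 : w.head? = some i
  · cases w with
    | nil => simp at c1
    | cons j w =>
      simp only [List.head?_cons, Option.some.injEq] at c1
      subst c1
      have e : actL r j (j :: w) = w := by unfold actL; simp
      rw [e]
      unfold actL
      rw [if_neg (red_cons.1 h1).1, if_pos]
      simp only [List.length_cons] at h2
      omega
  · by_cases c2 : w.length < r
    · have e : actL r i w = i :: w := by unfold actL; rw [if_neg c1, if_pos c2]
      rw [e]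
      unfold actL
      simp
    · have e : actL r i w = w := by unfold actL; rw [if_neg c1, if_neg c2]
      rw [e, e]

/-- the permutation of a letter -/
def sg (r : ℕ) (i : Fin k) : Equiv.Perm (TW k r) :=
  Function.Involutive.toPerm (fun w => ⟨actL r i w.1, actL_red w.2⟩)
    (fun w => Subtype.ext (actL_actL w.2))

lemma sg_sg (r : ℕ) (i : Fin k) : sg r i * sg r i = 1 := by
  ext1 w
  exact Subtype.ext (actL_actL w.2)

/-- the product along a word -/
def pr (r : ℕ) (w : List (Fin k)) : Equiv.Perm (TW k r) := (w.map (sg r)).prod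

/-- the empty word -/
def rt (k r : ℕ) : TW k r := ⟨[], by unfold Red; simp, by simp⟩

lemma pr_root {r : ℕ} {w : List (Fin k)} (h1 : Red w) (h2 : w.length ≤ r) :
    (pr r w (rt k r)).1 = w := by
  induction w with
  | nil => rfl
  | cons i w ih =>
    have h3 := red_cons.1 h1
    simp only [List.length_cons] at h2
    have ih' := ih h3.2 (by omega)
    have e : pr r (i :: w) (rt k r) = sg r i (pr r w (rt k r)) := by
      simp [pr]
    rw [e]
    change actL r i (pr r w (rt k r)).1 = i :: w
    rw [ih']
    unfold actL
    rw [if_neg h3.1, if_pos (by omega)]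

lemma pr_inj {r : ℕ} {w w' : List (Fin k)} (h1 : Red w) (h2 : w.length ≤ r) (h1' : Red w')
    (h2' : w'.length ≤ r) (h : pr r w = pr r w') : w = w' := by
  rw [← pr_root h1 h2, ← pr_root h1' h2', h]

lemma red_nil : Red ([] : List (Fin k)) := by unfold Red; simp

lemma red_one (i : Fin k) : Red [i] := by unfold Red; simp

lemma pr_nil (r : ℕ) : pr r ([] : List (Fin k)) = 1 := rfl

lemma pr_one (r : ℕ) (i : Fin k) : pr r [i] = sg r i := by simp [pr]

lemma pr_snoc (r : ℕ) (w : List (Fin k)) (i : Fin k) : pr r (w ++ [i]) = pr r w * sg r i := by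
  simp [pr]

lemma pr_append (r : ℕ) (w w' : List (Fin k)) : pr r (w ++ w') = pr r w * pr r w' := by
  simp [pr]

lemma eq_nil_of_pr {r : ℕ} {w : List (Fin k)} (h1 : Red w) (h2 : w.length ≤ r)
    (h : pr r w = 1) : w = [] :=
  pr_inj h1 h2 red_nil (by simp) (by rw [h, pr_nil])

lemma eq_one_of_pr {r : ℕ} {w : List (Fin k)} {z : Fin k} (hr : 1 ≤ r) (h1 : Red w)
    (h2 : w.length ≤ r) (h : pr r w = sg r z) : w = [z] :=
  pr_inj h1 h2 (red_one z) (by simpa using hr) (by rw [h, pr_one])

lemma sg_inj {r : ℕ} (hr : 1 ≤ r) {i j : Fin k} (h : sg r i = sg r j) : i = j := by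
  have h1 := pr_inj (red_one i) (by simpa using hr) (red_one j) (by simpa using hr)
    (by rw [pr_one, pr_one, h])
  simpa using h1

lemma sg_ne_one {r : ℕ} (hr : 1 ≤ r) (i : Fin k) : sg r i ≠ 1 := by
  intro h
  have h1 := eq_nil_of_pr (red_one i) (by simpa using hr) (by rw [pr_one, h])
  simp at h1

/-- appending a letter, with cancellation -/
lemma snoc_red {w : List (Fin k)} (h : Red w) {j : Fin k} (hj : w.getLast? ≠ some j) :
    Red (w ++ [j]) := by
  unfold Red at *
  rw [List.isChain_append]
  refine ⟨h, by simp, ?_⟩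
  intro a ha b hb
  simp only [List.head?_cons, Option.mem_def, Option.some.injEq] at ha hb
  subst hb
  rintro rfl
  exact hj ha

lemma red_of_append {w w' : List (Fin k)} (h : Red (w ++ w')) : Red w := by
  unfold Red at *
  rw [List.isChain_append] at h
  exact h.1

end Pool.Agent.Q228.LE
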